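import Pool.Agent.Y890.VH.Endo

/-!
# Points with complex multiplication
-/

set_option autoImplicit false
set_option linter.unusedSectionVars false

open NumberField Filter

namespace Pool.Agent.Y890.VH

open Pool.Agent.Y890.MV
open Pool.Agent.Y124 (Cov)

variable {H J : Type} [Fintype H] [DecidableEq H] [Fintype J] [DecidableEq J] {r : J → ℕ}

/-- a matrix with separable characteristic polynomial has only finitely many stable subspaces -/
theorem stable_finite (M : Matrix H H ℂ) (hM : M.charpoly.Separable) :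
    {W : Submodule ℂ (H → ℂ) | ∀ v ∈ W, M.mulVec v ∈ W}.Finite := by
  classical
  let f : Module.End ℂ (H → ℂ) := Matrix.toLin' M
  have hch : f.charpoly = M.charpoly := Matrix.charpoly_toLin' M
  have hdim : ∀ μ : ℂ, Module.finrank ℂ (f.maxGenEigenspace μ) ≤ 1 := by
    intro μ
    rw [LinearMap.finrank_maxGenEigenspace_eq, hch]
    exact Polynomial.rootMultiplicity_le_one_of_separable hM μ
  let rts : Set ℂ := {μ | f.maxGenEigenspace μ ≠ ⊥}
  have hrts : rts.Finite := by
    refine (M.charpoly.roots.toFinset.finite_toSet).subset fun μ hμ => ?_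
    rw [Finset.mem_coe, Multiset.mem_toFinset, Polynomial.mem_roots (Matrix.charpoly_monic M).ne_zero]
    by_contra h0
    apply hμ
    have h1 : Module.finrank ℂ (f.maxGenEigenspace μ) = 0 := by
      rw [LinearMap.finrank_maxGenEigenspace_eq, hch]
      exact Polynomial.rootMultiplicity_eq_zero h0
    exact Submodule.finrank_eq_zero.1 h1
  let φ : Submodule ℂ (H → ℂ) → Set ℂ := fun W => {μ | f.maxGenEigenspace μ ≤ W ∧ μ ∈ rts}
  refine Set.Finite.of_finite_image (f := φ) ?_ ?_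
  · refine hrts.finite_subsets.subset ?_
    rintro _ ⟨W, _, rfl⟩ μ hμ
    exact hμ.2
  · have key : ∀ W W' : Submodule ℂ (H → ℂ), (∀ v ∈ W, M.mulVec v ∈ W) → φ W = φ W' → W ≤ W' := by
      intro W W' hW h
      have h1 := Submodule.eq_iSup_inf_genEigenspace (p := W) (f := f) ⊤ hW (Module.End.iSup_maxGenEigenspace_eq_top f)
      rw [h1]
      refine iSup_le fun μ => ?_
      by_cases h0 : W ⊓ f.genEigenspace μ ⊤ = ⊥
      · rw [h0]
        exact bot_le
      · have h2 : W ⊓ f.maxGenEigenspace μ = f.maxGenEigenspace μ := by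
          refine Submodule.eq_of_le_of_finrank_le inf_le_right ?_
          refine (hdim μ).trans ?_
          rw [Nat.one_le_iff_ne_zero]
          intro h3
          exact h0 (Submodule.finrank_eq_zero.1 h3)
        have h3 : μ ∈ φ W := by
          refine ⟨?_, ?_⟩
          · rw [← h2]
            exact inf_le_left
          · intro h4
            apply h0
            change W ⊓ f.maxGenEigenspace μ = ⊥
            rw [h2, h4]
        rw [h] at h3
        exact inf_le_right.trans h3.1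
    intro W hW W' hW' h
    exact le_antisymm (key W W' hW h) (key W' W hW' h.symm)

/-- if an infinite group with finite stabilizer moves the filtration, not all conjugates of an endomorphism with
distinct eigenvalues are endomorphisms -/
theorem exists_not_pres (Γ : Subgroup (GL H ℂ)) (hinf : Infinite Γ) (y : Sg H J r → ℂ)
    (hst : {γ : GL H ℂ | γ ∈ Γ ∧ ∀ j, (Fil y j).map (Matrix.toLin' (γ : Matrix H H ℂ)) = Fil y j}.Finite)
    (M : Matrix H H ℂ) (hM : M.charpoly.Separable) : ∃ γ ∈ Γ, ¬ Pres (act (γ : Matrix H H ℂ) y) M := by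
  classical
  by_contra hcon
  push Not at hcon
  let S : Set (Submodule ℂ (H → ℂ)) := {W | ∀ v ∈ W, M.mulVec v ∈ W}
  have hS : Finite S := (stable_finite M hM).to_subtype
  let Φ : Γ → (J → S) := fun γ j => ⟨Fil (act ((γ : GL H ℂ) : Matrix H H ℂ) y) j, hcon γ γ.2 j⟩
  obtain ⟨z, hz⟩ := Finite.exists_infinite_fiber Φ
  obtain ⟨γ0, hγ0⟩ : Nonempty (Φ ⁻¹' {z}) := inferInstance
  have hmem : ∀ γ : Φ ⁻¹' {z}, ((γ0 : GL H ℂ)⁻¹ * (γ : Γ) : GL H ℂ) ∈
      {γ : GL H ℂ | γ ∈ Γ ∧ ∀ j, (Fil y j).map (Matrix.toLin' (γ : Matrix H H ℂ)) = Fil y j} := by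
    rintro ⟨γ, hγ⟩
    refine ⟨Γ.mul_mem (Γ.inv_mem γ0.2) γ.2, fun j => ?_⟩
    have h1 : Φ γ = Φ γ0 := by
      rw [Set.mem_preimage, Set.mem_singleton_iff] at hγ hγ0
      rw [hγ, hγ0]
    have h2 := congrArg Subtype.val (congrFun h1 j)
    change Fil (act ((γ : GL H ℂ) : Matrix H H ℂ) y) j = Fil (act ((γ0 : GL H ℂ) : Matrix H H ℂ) y) j at h2
    rw [Fil_act] at h2
    rw [Units.val_mul, Matrix.toLin'_mul, Submodule.map_comp, h2, ← Fil_act, act_inv]
  let Ψ : Φ ⁻¹' {z} →
      {γ : GL H ℂ | γ ∈ Γ ∧ ∀ j, (Fil y j).map (Matrix.toLin' (γ : Matrix H H ℂ)) = Fil y j} :=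
    fun γ => ⟨_, hmem γ⟩
  have hΨ : Function.Injective Ψ := by
    intro a b hab
    have h1 := congrArg Subtype.val hab
    have h2 : ((a : Γ) : GL H ℂ) = (b : Γ) := mul_left_cancel h1
    exact Subtype.ext (Subtype.ext h2)
  have := hst.to_subtype
  exact not_finite_iff_infinite.2 hz (Finite.of_injective Ψ hΨ)

variable {X : Type} [Fintype X] [DecidableEq X] [Nonempty X]

/-- points with an endomorphism of size at most `T ^ a` with distinct eigenvalues -/
def CMPts (f : Sg H J r → (X → ℂ) → ℂ) (Lc : Set (X → ℂ)) (K : Type) [Field K] [NumberField K] (io : K →+* ℂ)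
    (a T : ℝ) : Set (X → K) :=
  {s | (∀ j, Y120.HtLe K T (s j)) ∧ (fun j => io (s j)) ∈ Lc ∧ ∃ M : Matrix H H (𝓞 K),
    (∀ i j (φ : K →+* ℂ), ‖φ (M i j : K)‖ ≤ T ^ a) ∧
    (Matrix.of fun i j => io (M i j : K) : Matrix H H ℂ).charpoly.Separable ∧
    Pres (fun y => f y fun j => io (s j)) (Matrix.of fun i j => io (M i j : K))}

theorem cm_sub {U : Set (X → ℂ)} {f : Sg H J r → (X → ℂ) → ℂ} (Γ : Subgroup (GL H ℂ)) (hinf : Infinite Γ)
    (hst : ∀ x ∈ U, {γ : GL H ℂ | γ ∈ Γ ∧ ∀ j, (Fil (fun y => f y x) j).map (Matrix.toLin' (γ : Matrix H H ℂ)) =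
      Fil (fun y => f y x) j}.Finite) {Lc : Set (X → ℂ)} (hLU : Lc ⊆ U) (K : Type) [Field K] [NumberField K]
    (io : K →+* ℂ) (a T : ℝ) : CMPts f Lc K io a T ⊆ ExcEnd f Lc K io Γ a T := by
  rintro s ⟨h1, h2, M, h3, h4, h5⟩
  exact ⟨h1, h2, M, h3, h5, exists_not_pres Γ hinf _ (hst _ (hLU h2)) _ h4⟩

end Pool.Agent.Y890.VH
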