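import Pool.Agent.Y890.VH.Inc

/-!
# Endomorphisms of filtrations and monodromy
-/

set_option autoImplicit false
set_option linter.unusedSectionVars false

open NumberField Filter

namespace Pool.Agent.Y890.VH

open Pool.Agent.Y890.MV
open Pool.Agent.Y124 (Cov)

variable {H J : Type} [Fintype H] [DecidableEq H] [Fintype J] [DecidableEq J] {r : J → ℕ}

/-- indices of the entries of matrices `F_j`, with rows in `H` and `r j` columns -/
abbrev Sg (H J : Type) (r : J → ℕ) : Type := Σ j : J, H × Fin (r j)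

/-- the span of the columns of the matrix `F_j` -/
def Fil (y : Sg H J r → ℂ) (j : J) : Submodule ℂ (H → ℂ) := cols fun m c => y ⟨j, (m, c)⟩

/-- the matrices `γ F_j` -/
def act (γ : Matrix H H ℂ) (y : Sg H J r → ℂ) : Sg H J r → ℂ := fun q => ∑ m, γ q.2.1 m * y ⟨q.1, (m, q.2.2)⟩

/-- `M` preserves the spans of the columns of the `F_j` -/
def Pres (y : Sg H J r → ℂ) (M : Matrix H H ℂ) : Prop := ∀ j, ∀ v ∈ Fil y j, M.mulVec v ∈ Fil y j

theorem Fil_act (γ : Matrix H H ℂ) (y : Sg H J r → ℂ) (j : J) :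
    Fil (act γ y) j = (Fil y j).map (Matrix.toLin' γ) := by
  unfold Fil cols
  rw [Submodule.map_span]
  congr 1
  rw [← Set.range_comp]
  congr 1

theorem pres_iff (y : Sg H J r → ℂ) (M : Matrix H H ℂ) :
    Pres y M ↔ ∀ j, Fil y j ≤ (Fil y j).comap (Matrix.toLin' M) := Iff.rfl

theorem act_inv (γ : GL H ℂ) (y : Sg H J r → ℂ) :
    act ((γ⁻¹ : GL H ℂ) : Matrix H H ℂ) (act (γ : Matrix H H ℂ) y) = y := by
  have h1 : ((γ⁻¹ : GL H ℂ) : Matrix H H ℂ) * (γ : Matrix H H ℂ) = 1 := by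
    rw [← Units.val_mul, inv_mul_cancel, Units.val_one]
  funext q
  have h2 : act ((γ⁻¹ : GL H ℂ) : Matrix H H ℂ) (act (γ : Matrix H H ℂ) y) q =
      ∑ m, ((((γ⁻¹ : GL H ℂ) : Matrix H H ℂ) * (γ : Matrix H H ℂ)) q.2.1 m) * y ⟨q.1, (m, q.2.2)⟩ := by
    simp only [act, Matrix.mul_apply, Finset.mul_sum, Finset.sum_mul]
    rw [Finset.sum_comm]
    refine Finset.sum_congr rfl fun a _ => Finset.sum_congr rfl fun b _ => ?_
    ring
  rw [h2, h1]
  simp only [Matrix.one_apply, ite_mul, one_mul, zero_mul, Finset.sum_ite_eq, Finset.mem_univ, if_true]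

theorem finrank_Fil_act (γ : GL H ℂ) (y : Sg H J r → ℂ) (j : J) :
    Module.finrank ℂ (Fil (act (γ : Matrix H H ℂ) y) j) = Module.finrank ℂ (Fil y j) := by
  refine le_antisymm ?_ ?_
  · rw [Fil_act]
    exact Submodule.finrank_map_le _ _
  · have h1 := Fil_act ((γ⁻¹ : GL H ℂ) : Matrix H H ℂ) (act (γ : Matrix H H ℂ) y) j
    rw [act_inv] at h1
    rw [h1]
    exact Submodule.finrank_map_le _ _

/-- the matrices of the conditions -/
noncomputable def AE (q : Σ j, Fin (r j)) (m : H) (e : Σ j, Fin (r j)) : MvPolynomial (Sg H J r) ℂ :=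
  if e.1 = q.1 then MvPolynomial.X ⟨e.1, (m, e.2)⟩ else 0

/-- the vectors of the conditions -/
noncomputable def WE (q : Σ j, Fin (r j)) (ab : H × H) (m : H) : MvPolynomial (Sg H J r) ℂ :=
  if m = ab.1 then MvPolynomial.X ⟨q.1, (ab.2, q.2)⟩ else 0

theorem cols_AE (y : Sg H J r → ℂ) (q : Σ j, Fin (r j)) :
    (cols fun m e => MvPolynomial.eval y (AE q m e)) = Fil y q.1 := by
  refine le_antisymm (Submodule.span_le.2 ?_) (Submodule.span_le.2 ?_)
  · rintro _ ⟨e, rfl⟩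
    obtain ⟨j, c⟩ := q
    obtain ⟨j', c'⟩ := e
    by_cases h : j' = j
    · subst h
      refine Submodule.subset_span ⟨c', ?_⟩
      funext m
      simp [AE]
    · have h1 : (fun m => MvPolynomial.eval y (AE (H := H) ⟨j, c⟩ m ⟨j', c'⟩)) = 0 := by
        funext m
        simp [AE, h]
      beta_reduce
      rw [h1]
      exact Submodule.zero_mem _
  · rintro _ ⟨c', rfl⟩
    obtain ⟨j, c⟩ := q
    refine Submodule.subset_span ⟨⟨j, c'⟩, ?_⟩
    funext m
    simp [AE]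

theorem inc_iff (y : Sg H J r → ℂ) (M : Matrix H H ℂ) :
    Inc AE WE y (fun ab : H × H => M ab.1 ab.2) ↔ Pres y M := by
  have h1 : ∀ (j : J) (c : Fin (r j)), (fun m => ∑ ab : H × H, M ab.1 ab.2 *
      MvPolynomial.eval y (WE (H := H) ⟨j, c⟩ ab m)) = M.mulVec (fun m => y ⟨j, (m, c)⟩) := by
    intro j c
    funext m
    rw [Fintype.sum_prod_type, Finset.sum_eq_single m]
    · simp [WE, Matrix.mulVec, dotProduct]
    · intro b _ hb
      refine Finset.sum_eq_zero fun d _ => ?_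
      simp [WE, Ne.symm hb]
    · simp
  constructor
  · intro hI
    rw [pres_iff]
    intro j
    refine Submodule.span_le.2 ?_
    rintro _ ⟨c, rfl⟩
    have h2 := hI ⟨j, c⟩
    rw [h1, cols_AE] at h2
    exact h2
  · rintro hP ⟨j, c⟩
    rw [h1, cols_AE]
    exact hP j _ (Submodule.subset_span ⟨c, rfl⟩)

variable {X : Type} [Fintype X] [DecidableEq X] [Nonempty X]

/-- the polynomial relations over `ℂ[x]` between the functions `f` on `U` are relations between the functions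
`γ f` -/
def MonInv (U : Set (X → ℂ)) (f : Sg H J r → (X → ℂ) → ℂ) (γ : Matrix H H ℂ) : Prop :=
  ∀ p : MvPolynomial (Sg H J r) (MvPolynomial X ℂ), (∀ x ∈ U, evM f x p = 0) →
    ∀ x ∈ U, evX x (act γ fun y => f y x) p = 0

/-- points with a small endomorphism some conjugate of which is not an endomorphism -/
def ExcEnd (f : Sg H J r → (X → ℂ) → ℂ) (Lc : Set (X → ℂ)) (K : Type) [Field K] [NumberField K] (io : K →+* ℂ)
    (Γ : Subgroup (GL H ℂ)) (a T : ℝ) : Set (X → K) :=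
  {s | (∀ j, Y120.HtLe K T (s j)) ∧ (fun j => io (s j)) ∈ Lc ∧ ∃ M : Matrix H H (𝓞 K),
    (∀ i j (φ : K →+* ℂ), ‖φ (M i j : K)‖ ≤ T ^ a) ∧
    Pres (fun y => f y fun j => io (s j)) (Matrix.of fun i j => io (M i j : K)) ∧
    ∃ γ ∈ Γ, ¬ Pres (act (γ : Matrix H H ℂ) fun y => f y fun j => io (s j)) (Matrix.of fun i j => io (M i j : K))}

theorem excEnd_cov {U : Set (X → ℂ)} {f : Sg H J r → (X → ℂ) → ℂ}
    (hU : IsPreconnected U) (hUo : IsOpen U) (hne : U.Nonempty) (hf : ∀ i, AnalyticOnNhd ℂ (f i) U)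
    (hreg : RegularM U f) (Γ : Subgroup (GL H ℂ)) (hΓ : ∀ γ ∈ Γ, MonInv U f (γ : Matrix H H ℂ))
    (Lc : Set (X → ℂ)) (hLc : IsCompact Lc) (hLU : Lc ⊆ U)
    (m : ℕ) (a ε : ℝ) (ha : 0 ≤ a) (hε : 0 < ε) : ∃ (D : ℕ) (C' T₀ : ℝ), 0 ≤ C' ∧ 2 ≤ T₀ ∧
      ∀ (K : Type) [Field K] [NumberField K], Module.finrank ℚ K ≤ m → ∀ (io : K →+* ℂ) (T : ℝ), T₀ ≤ T →
        Cov D ⌊C' * T ^ ε⌋₊ ((fun (s : X → K) j => io (s j)) '' ExcEnd f Lc K io Γ a T) := by
  classical
  obtain ⟨D, C', T₀, hC, hT₀, hcov⟩ := excI_cov (U := U) (f := f) hU hUo hne hf hreg Lc hLc hLU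
    (AE (H := H) (J := J) (r := r)) WE {g | ∃ γ ∈ Γ, g = act (γ : Matrix H H ℂ)} (by
      rintro _ ⟨γ, hγ, rfl⟩ p hp x hx
      exact hΓ γ hγ p hp x hx) (by
      rintro _ ⟨γ, hγ, rfl⟩ x _ q
      rw [cols_AE, cols_AE]
      exact finrank_Fil_act γ _ _) m a ε ha hε
  refine ⟨D, C', T₀, hC, hT₀, fun K _ _ hK io T hT => ?_⟩
  refine (hcov K hK io T hT).mono le_rfl le_rfl (Set.image_mono ?_)
  rintro s ⟨h1, h2, M, hM, hP, γ, hγ, hn⟩
  refine ⟨h1, h2, fun ab => M ab.1 ab.2, fun ab φ => hM _ _ φ, ?_, _, ⟨γ, hγ, rfl⟩, ?_⟩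
  · have h3 := (inc_iff (fun y => f y fun j => io (s j)) (Matrix.of fun i j => io (M i j : K))).2 hP
    exact h3
  · intro h3
    exact hn ((inc_iff _ (Matrix.of fun i j => io (M i j : K))).1 h3)

end Pool.Agent.Y890.VH
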