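import Pool.Agent.Y890.VH.RelMain

/-!
# Images of a fixed structure
-/

set_option autoImplicit false
set_option linter.unusedSectionVars false

open NumberField Filter

namespace Pool.Agent.Y890.VH

open Pool.Agent.Y890.MV
open Pool.Agent.Y124 (Cov)

variable {H J : Type} [Fintype H] [DecidableEq H] [Fintype J] [DecidableEq J] {r : J → ℕ}

theorem ten_one_iff (S : Set (Fin 1 → J)) (j : J) (hS : ∀ j', j' ∈ S ↔ j' 0 = j) (y : Sg H J r → ℂ)
    (w : (Fin 1 → H) → ℂ) : w ∈ Ten S y ↔ (fun h => w fun _ => h) ∈ Fil y j := by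
  classical
  have h1 : Ten S y ≤ (Fil y j).comap (LinearMap.funLeft ℂ ℂ fun (h : H) (_ : Fin 1) => h) := by
    refine Submodule.span_le.2 ?_
    rintro _ ⟨j', hj', c, rfl⟩
    have h2 := (hS j').1 hj'
    subst h2
    change (LinearMap.funLeft ℂ ℂ fun (h : H) (_ : Fin 1) => h) (ten y j' c) ∈ Fil y (j' 0)
    refine Submodule.subset_span ⟨c 0, ?_⟩
    funext h
    simp [LinearMap.funLeft, ten]
  have h2 : Fil y j ≤ (Ten S y).comap (LinearMap.funLeft ℂ ℂ fun (m : Fin 1 → H) => m 0) := by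
    refine Submodule.span_le.2 ?_
    rintro _ ⟨c, rfl⟩
    change (LinearMap.funLeft ℂ ℂ fun (m : Fin 1 → H) => m 0) (fun m => y ⟨j, (m, c)⟩) ∈ Ten S y
    refine Submodule.subset_span ⟨fun _ => j, (hS _).2 rfl, fun _ => c, ?_⟩
    funext m
    simp [LinearMap.funLeft, ten]
  constructor
  · intro hw
    exact h1 hw
  · intro hw
    have h3 := h2 hw
    have h4 : (LinearMap.funLeft ℂ ℂ fun (m : Fin 1 → H) => m 0) (fun h => w fun _ => h) = w := by
      funext m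
      have h5 : (fun _ => m 0 : Fin 1 → H) = m := by
        funext i
        rw [Subsingleton.elim i 0]
      simp only [LinearMap.funLeft_apply, h5]
    change (LinearMap.funLeft ℂ ℂ fun (m : Fin 1 → H) => m 0) (fun h => w fun _ => h) ∈ Ten S y at h3
    rw [h4] at h3
    exact h3

variable {H' : Type} [Fintype H'] [DecidableEq H'] {r' : J → ℕ} {k : ℕ}

/-- the coefficients -/
noncomputable def hv (e1 : H' ↪ Fin k) (e2 : (Σ j, Fin (r' j)) ↪ Fin k) (y' : Sg H' J r' → ℂ) (p i : ℕ) : ℂ :=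
  Function.extend (fun x : (Σ j, Fin (r' j)) × H' => (((e2 x.1 : Fin k) : ℕ), ((e1 x.2 : Fin k) : ℕ)))
    (fun x => y' ⟨x.1.1, (x.2, x.1.2)⟩) 0 (p, i)

/-- the tensors -/
noncomputable def ht {k₀ : Type*} [CommRing k₀] (e1 : H' ↪ Fin k) (M : Matrix H H' k₀) (i : Fin k) :
    Matrix (Fin 1 → H) (Fin 0 → H) k₀ := Matrix.of fun m _ => Function.extend e1 (fun h => M (m 0) h) 0 i

/-- the types -/
def hS (e2 : (Σ j, Fin (r' j)) ↪ Fin k) (p : Fin k) (_ : Fin 0 → J) : Set (Fin 1 → J) :=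
  {j' | ∀ q, e2 q = p → j' 0 = q.1}

theorem hv_inj (e1 : H' ↪ Fin k) (e2 : (Σ j, Fin (r' j)) ↪ Fin k) : Function.Injective
    (fun x : (Σ j, Fin (r' j)) × H' => (((e2 x.1 : Fin k) : ℕ), ((e1 x.2 : Fin k) : ℕ))) := by
  rintro ⟨q, h⟩ ⟨q', h'⟩ hx
  simp only [Prod.mk.injEq] at hx
  rw [Prod.mk.injEq]
  exact ⟨e2.injective (Fin.ext hx.1), e1.injective (Fin.ext hx.2)⟩

theorem hv_apply (e1 : H' ↪ Fin k) (e2 : (Σ j, Fin (r' j)) ↪ Fin k) (y' : Sg H' J r' → ℂ) (q : Σ j, Fin (r' j))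
    (h : H') : hv e1 e2 y' (e2 q : Fin k) (e1 h : Fin k) = y' ⟨q.1, (h, q.2)⟩ :=
  (hv_inj e1 e2).extend_apply _ _ (q, h)

theorem hv_zero (e1 : H' ↪ Fin k) (e2 : (Σ j, Fin (r' j)) ↪ Fin k) (y' : Sg H' J r' → ℂ) (p i : Fin k)
    (h : p ∉ Set.range e2) : hv e1 e2 y' p i = 0 := by
  unfold hv
  rw [Function.extend_apply']
  · rfl
  · rintro ⟨⟨q, h'⟩, hx⟩
    simp only [Prod.mk.injEq] at hx
    exact h ⟨q, Fin.ext hx.1⟩

theorem hecke_iff (e1 : H' ↪ Fin k) (e2 : (Σ j, Fin (r' j)) ↪ Fin k) (y' : Sg H' J r' → ℂ) (M : Matrix H H' ℂ)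
    (y : Sg H J r → ℂ) : RelMor (hv e1 e2 y') (hS e2) y (ht e1 M) ↔
      ∀ q : Σ j, Fin (r' j), (M.mulVec fun h => y' ⟨q.1, (h, q.2)⟩) ∈ Fil y q.1 := by
  classical
  have h1 : ∀ (q : Σ j, Fin (r' j)) (j : Fin 0 → J) (c : ∀ i, Fin (r (j i))),
      (fun h => (((∑ i : Fin k, hv e1 e2 y' (e2 q : Fin k) i • ht e1 M i : Matrix (Fin 1 → H) (Fin 0 → H) ℂ)).mulVec
        (ten y j c)) fun _ => h) = M.mulVec fun h => y' ⟨q.1, (h, q.2)⟩ := by
    intro q j c
    funext h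
    simp only [Matrix.mulVec, dotProduct, ten, Finset.univ_eq_empty, Finset.prod_empty, mul_one,
      Fintype.sum_unique, Matrix.sum_apply, Matrix.smul_apply, smul_eq_mul]
    symm
    refine Fintype.sum_of_injective e1 e1.injective _ _ ?_ ?_
    · intro i hi
      have h2 : ht e1 M i (fun _ => h) default = 0 := by
        simp only [ht, Matrix.of_apply]
        rw [Function.extend_apply']
        · rfl
        · rintro ⟨h', hh⟩
          exact hi ⟨h', hh⟩
      rw [h2, mul_zero]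
    · intro h'
      have h2 : ht e1 M (e1 h') (fun _ => h) default = M h h' := by
        simp only [ht, Matrix.of_apply]
        rw [e1.injective.extend_apply]
      rw [h2, hv_apply, mul_comm]
  constructor
  · intro hR q
    have h2 := hR (e2 q) Fin.elim0 (fun i => i.elim0)
    rw [ten_one_iff _ q.1 _] at h2
    · rw [h1] at h2
      exact h2
    · intro j'
      constructor
      · intro h3
        exact h3 q rfl
      · intro h3 q' hq'
        rw [e2.injective hq']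
        exact h3
  · intro hq p j c
    by_cases hp : p ∈ Set.range e2
    · obtain ⟨q, rfl⟩ := hp
      rw [ten_one_iff _ q.1 _]
      · rw [h1]
        exact hq q
      · intro j'
        constructor
        · intro h3
          exact h3 q rfl
        · intro h3 q' hq'
          rw [e2.injective hq']
          exact h3
    · have h2 : (∑ i : Fin k, hv e1 e2 y' p i • ht e1 M i : Matrix (Fin 1 → H) (Fin 0 → H) ℂ) = 0 :=
        Finset.sum_eq_zero fun i _ => by rw [hv_zero e1 e2 y' p i hp, zero_smul]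
      rw [h2, Matrix.zero_mulVec]
      exact Submodule.zero_mem _

variable {X : Type} [Fintype X] [DecidableEq X] [Nonempty X]

theorem hecke_sub (f : Sg H J r → (X → ℂ) → ℂ) (Γ : Subgroup (GL H ℂ)) (y' : Sg H' J r' → ℂ) (k : ℕ) (hk : 0 < k)
    (h1 : Fintype.card H' ≤ k) (h2 : Fintype.card (Σ j, Fin (r' j)) ≤ k) : ∃ v : ℕ → ℕ → ℂ,
      ∀ (Lc : Set (X → ℂ)) (K : Type) [Field K] [NumberField K] (io : K →+* ℂ) (T : ℝ), 1 ≤ T →
        HeckePts f Lc K io Γ y' k T ⊆ ExcRel f Lc K io Γ v k T := by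
  classical
  obtain ⟨e1⟩ := Function.Embedding.nonempty_of_card_le (α := H') (β := Fin k) (by rwa [Fintype.card_fin])
  obtain ⟨e2⟩ := Function.Embedding.nonempty_of_card_le (α := Σ j, Fin (r' j)) (β := Fin k)
    (by rwa [Fintype.card_fin])
  refine ⟨hv e1 e2 y', fun Lc K _ _ io T hT => ?_⟩
  rintro s ⟨hs1, hs2, M, hM, hF, γ, hγ, j, hj⟩
  have hmap : (fun p => Matrix.of fun i j => io ((ht e1 M p i j : 𝓞 K) : K)) =
      ht (H := H) e1 (Matrix.of fun i j => io (M i j : K)) := by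
    funext p
    ext m m'
    simp only [ht, Matrix.of_apply]
    by_cases hp : ∃ h, e1 h = p
    · obtain ⟨h, rfl⟩ := hp
      rw [e1.injective.extend_apply, e1.injective.extend_apply]
    · rw [Function.extend_apply' _ _ _ hp, Function.extend_apply' _ _ _ hp]
      simp
  refine ⟨1, 0, hk, Nat.zero_le _, hS e2, hs1, hs2, ht e1 M, ?_, ?_, γ, hγ, ?_⟩
  · intro p m m' φ
    simp only [ht, Matrix.of_apply]
    by_cases hp : ∃ h, e1 h = p
    · obtain ⟨h, rfl⟩ := hp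
      rw [e1.injective.extend_apply]
      exact hM _ _ _
    · rw [Function.extend_apply' _ _ _ hp]
      have h3 : φ (((0 : Fin k → 𝓞 K) p : 𝓞 K) : K) = 0 := by simp
      rw [h3, norm_zero]
      exact Real.rpow_nonneg (by linarith) _
  · rw [hmap, hecke_iff]
    intro q
    have h3 := hF q.1
    rw [← h3]
    exact ⟨_, Submodule.subset_span ⟨q.2, rfl⟩, rfl⟩
  · rw [hmap, hecke_iff]
    intro hall
    apply hj
    have h3 : Fil (fun y => f y fun j => io (s j)) j ≤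
        (Fil (fun y => f y fun j => io (s j)) j).map (Matrix.toLin' (γ : Matrix H H ℂ)) := by
      rw [← Fil_act]
      conv_lhs => rw [← hF j]
      unfold Fil cols
      rw [Submodule.map_span]
      refine Submodule.span_le.2 ?_
      rintro _ ⟨_, ⟨c, rfl⟩, rfl⟩
      exact hall ⟨j, c⟩
    refine (Submodule.eq_of_le_of_finrank_eq h3 ?_).symm
    rw [← Fil_act, finrank_Fil_act]

theorem mainR {U : Set (X → ℂ)} {f : Sg H J r → (X → ℂ) → ℂ}
    (hU : IsPreconnected U) (hUo : IsOpen U) (hne : U.Nonempty) (hf : ∀ i, AnalyticOnNhd ℂ (f i) U)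
    (hreg : RegularM U f) (Γ : Subgroup (GL H ℂ)) (hΓ : ∀ γ ∈ Γ, MonInv U f (γ : Matrix H H ℂ)) :
    ∃ (ω : ℝ → ℕ) (T₀ : ℝ), Tendsto ω atTop atTop ∧ Monotone ω ∧ ∀ T, T₀ ≤ T → 0 < ω T ∧
      ∀ (K : Type) [Field K] [NumberField K], Module.finrank ℚ K ≤ ω T → ∀ (io : K →+* ℂ) (v : ℕ → ℕ → ℂ),
        Cov ⌊T ^ ((ω T : ℝ)⁻¹)⌋₊ ⌊T ^ ((ω T : ℝ)⁻¹)⌋₊
          ((fun (s : X → K) j => io (s j)) '' ExcRel f (InnerM U (ω T)) K io Γ v (ω T) T) ∧
        (ExcRel f (InnerM U (ω T)) K io Γ v (ω T) T).Finite ∧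
        ((ExcRel f (InnerM U (ω T)) K io Γ v (ω T) T).ncard : ℝ) ≤
          T ^ ((ω T : ℝ)⁻¹) * ({x : K | Y120.HtLe K T x}.ncard : ℝ) ^ (Fintype.card X - 1) := by
  classical
  obtain ⟨ω, T₀, h1, h2, h3⟩ := omega_gen (X := X) (fun _ => ℕ → ℕ → ℂ)
    (fun k K _ _ io v T => ExcRel f (InnerM U k) K io Γ v k T)
    (fun k K _ _ io _ T s hs => by
      obtain ⟨a, b, _, _, S, hs⟩ := hs
      exact hs.1) (by
      intro k ε hε
      rcases Nat.eq_zero_or_pos k with hk | hk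
      · refine ⟨0, 0, 2, le_rfl, le_rfl, ?_⟩
        intro K _ _ hK
        have h1 : 0 < Module.finrank ℚ K := Module.finrank_pos
        omega
      obtain ⟨D, C, T₀, hC, hT₀, H⟩ := excRel_cov hU hUo hne hf hreg Γ hΓ (InnerM U k) (innerM_compact _ _)
        (innerM_sub _ hk) k ε hε
      exact ⟨D, C, T₀, hC, hT₀, fun K _ _ hK io v T hT => H K hK io v T hT⟩)
  exact ⟨ω, T₀, h1, h2, h3⟩

end Pool.Agent.Y890.VH
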