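import Mathlib

/-!
# Minors and the span of the columns of a matrix
-/

set_option autoImplicit false
set_option linter.unusedSectionVars false

namespace Pool.Agent.Y890.VH

/-- the span of the columns of a matrix -/
def cols {R C : Type} (A : R → C → ℂ) : Submodule ℂ (R → ℂ) := Submodule.span ℂ (Set.range fun c m => A m c)

/-- the minor of `(A | w)` with rows `ι`, `i` and columns `κ`, `w` -/
noncomputable def D {k : Type*} [CommRing k] {R C : Type} {n : ℕ} (ι : Fin n → R) (κ : Fin n → C) (i : R)
    (A : R → C → k) (w : R → k) : k :=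
  Matrix.cramer (Matrix.of fun (p q : Fin n ⊕ Unit) =>
    Sum.elim (fun l => A (Sum.elim ι (fun _ => i) p) (κ l)) (fun _ => 0) q)
    (fun p => w (Sum.elim ι (fun _ => i) p)) (Sum.inr ())

/-- the corresponding matrix -/
def DM {k : Type*} {R C : Type} {n : ℕ} (ι : Fin n → R) (κ : Fin n → C) (i : R)
    (A : R → C → k) (w : R → k) : Matrix (Fin n ⊕ Unit) (Fin n ⊕ Unit) k :=
  Matrix.of fun p q => Sum.elim (fun l => A (Sum.elim ι (fun _ => i) p) (κ l))
    (fun _ => w (Sum.elim ι (fun _ => i) p)) q

variable {k : Type*} [CommRing k] {R C : Type} {n : ℕ} (ι : Fin n → R) (κ : Fin n → C) (i : R)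

theorem D_eq (A : R → C → k) (w : R → k) : D ι κ i A w = (DM ι κ i A w).det := by
  rw [D, Matrix.cramer_apply]
  congr 1
  ext p q
  rcases q with l | u
  · simp [DM]
  · simp [DM]

theorem D_sum {h : Type*} (s : Finset h) (A : R → C → k) (c : h → k) (W : h → R → k) :
    D ι κ i A (fun m => ∑ j ∈ s, c j * W j m) = ∑ j ∈ s, c j * D ι κ i A (W j) := by
  unfold D
  have h1 : (fun p : Fin n ⊕ Unit => (fun m => ∑ j ∈ s, c j * W j m) (Sum.elim ι (fun _ => i) p)) =
      ∑ j ∈ s, c j • fun p : Fin n ⊕ Unit => W j (Sum.elim ι (fun _ => i) p) := by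
    funext p
    simp
  rw [h1, map_sum]
  simp only [map_smul, Finset.sum_apply, Pi.smul_apply, smul_eq_mul]

theorem D_sub (A : R → C → k) (w w' : R → k) :
    D ι κ i A (fun m => w m - w' m) = D ι κ i A w - D ι κ i A w' := by
  unfold D
  have h1 : (fun p : Fin n ⊕ Unit => (fun m => w m - w' m) (Sum.elim ι (fun _ => i) p)) =
      (fun p : Fin n ⊕ Unit => w (Sum.elim ι (fun _ => i) p)) - fun p => w' (Sum.elim ι (fun _ => i) p) := by
    funext p
    simp
  rw [h1, map_sub]
  rfl

theorem D_map {k' : Type*} [CommRing k'] (φ : k →+* k') (A : R → C → k) (w : R → k) :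
    φ (D ι κ i A w) = D ι κ i (fun m c => φ (A m c)) fun m => φ (w m) := by
  rw [D_eq, D_eq, RingHom.map_det]
  congr 1
  ext p q
  rcases q with l | u
  · simp [DM]
  · simp [DM]

theorem D_col (A : R → C → k) (b : Fin n) : D ι κ i A (fun m => A m (κ b)) = 0 := by
  rw [D_eq]
  refine Matrix.det_zero_of_column_eq (i := Sum.inl b) (j := Sum.inr ()) (by simp) fun p => ?_
  simp [DM]

/-- if the rank is at most `n`, the minors of size `n + 1` vanish -/
theorem D_zero (A : R → C → ℂ) [Fintype R] (hn : Module.finrank ℂ (cols A) ≤ n) (w : R → ℂ) (hw : w ∈ cols A) :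
    D ι κ i A w = 0 := by
  classical
  by_contra h0
  rw [D_eq] at h0
  have h1 := Matrix.linearIndependent_cols_of_det_ne_zero h0
  let v : Fin n ⊕ Unit → cols A := fun q =>
    Sum.elim (fun l => ⟨fun m => A m (κ l), Submodule.subset_span ⟨κ l, rfl⟩⟩) (fun _ => ⟨w, hw⟩) q
  let L : cols A →ₗ[ℂ] (Fin n ⊕ Unit → ℂ) :=
    (LinearMap.funLeft ℂ ℂ (Sum.elim ι fun _ => i)).comp (cols A).subtype
  have h2 : L ∘ v = (DM ι κ i A w).col := by
    funext q
    rcases q with l | u
    · funext p
      rfl
    · funext p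
      rfl
  have h3 : LinearIndependent ℂ v := by
    refine LinearIndependent.of_comp L ?_
    rw [h2]
    exact h1
  have h4 := h3.fintype_card_le_finrank
  simp only [Fintype.card_sum, Fintype.card_fin, Fintype.card_unit] at h4
  omega

/-- if a minor of size `n` does not vanish, the rank is at least `n` -/
theorem rank_ge (A : R → C → ℂ) [Fintype R] (h0 : (Matrix.of fun a b => A (ι a) (κ b)).det ≠ 0) :
    n ≤ Module.finrank ℂ (cols A) := by
  classical
  have h1 := Matrix.linearIndependent_cols_of_det_ne_zero h0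
  let v : Fin n → cols A := fun l => ⟨fun m => A m (κ l), Submodule.subset_span ⟨κ l, rfl⟩⟩
  let L : cols A →ₗ[ℂ] (Fin n → ℂ) := (LinearMap.funLeft ℂ ℂ ι).comp (cols A).subtype
  have h2 : L ∘ v = (Matrix.of fun a b => A (ι a) (κ b)).col := by
    funext q p
    rfl
  have h3 : LinearIndependent ℂ v := by
    refine LinearIndependent.of_comp L ?_
    rw [h2]
    exact h1
  have h4 := h3.fintype_card_le_finrank
  simpa using h4

/-- if a minor of size `n` does not vanish, and all minors of `(A | w)` of size `n + 1` which contain it vanish, then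
`w` belongs to the span of the columns -/
theorem D_mem (A : R → C → ℂ) (h0 : (Matrix.of fun a b => A (ι a) (κ b)).det ≠ 0) (w : R → ℂ)
    (hw : ∀ i, D ι κ i A w = 0) : w ∈ cols A := by
  classical
  set B : Matrix (Fin n) (Fin n) ℂ := Matrix.of fun a b => A (ι a) (κ b) with hB
  have hu : IsUnit B.det := isUnit_iff_ne_zero.2 h0
  set u : Fin n → ℂ := B⁻¹.mulVec (fun a => w (ι a)) with hu'
  have hBu : B.mulVec u = fun a => w (ι a) := by
    rw [hu', Matrix.mulVec_mulVec, Matrix.mul_nonsing_inv B hu, Matrix.one_mulVec]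
  have key : ∀ i, w i - ∑ b, u b * A i (κ b) = 0 := by
    intro i
    have h1 : D ι κ i A (fun m => w m - ∑ b, u b * A m (κ b)) = 0 := by
      rw [D_sub, hw i, D_sum]
      simp only [D_col, mul_zero, Finset.sum_const_zero, sub_zero]
    rw [D_eq] at h1
    have h2 : DM ι κ i A (fun m => w m - ∑ b, u b * A m (κ b)) =
        Matrix.fromBlocks B 0 (Matrix.of fun (_ : Unit) b => A i (κ b))
          (Matrix.of fun (_ : Unit) (_ : Unit) => w i - ∑ b, u b * A i (κ b)) := by
      ext p q
      rcases p with p | p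
      · rcases q with q | q
        · simp [DM, hB]
        · simp only [DM, Matrix.of_apply, Sum.elim_inl, Sum.elim_inr, Matrix.fromBlocks_apply₁₂, Matrix.zero_apply]
          have h3 := congrFun hBu p
          rw [← h3]
          simp only [Matrix.mulVec, dotProduct, hB, Matrix.of_apply]
          rw [sub_eq_zero]
          exact Finset.sum_congr rfl fun b _ => mul_comm _ _
      · rcases q with q | q
        · simp [DM]
        · simp [DM]
    rw [h2, Matrix.det_fromBlocks_zero₁₂, mul_eq_zero] at h1
    have h3 := h1.resolve_left h0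
    rw [Matrix.det_unique] at h3
    exact h3
  have h4 : w = ∑ b, u b • fun m => A m (κ b) := by
    funext m
    have := key m
    rw [sub_eq_zero] at this
    rw [this]
    simp
  rw [h4]
  exact Submodule.sum_mem _ fun b _ => Submodule.smul_mem _ _ (Submodule.subset_span ⟨κ b, rfl⟩)

theorem exists_minor (A : R → C → ℂ) [Fintype R] [Fintype C] (n : ℕ) (hn : Module.finrank ℂ (cols A) = n) :
    ∃ (ι : Fin n → R) (κ : Fin n → C), (Matrix.of fun a b => A (ι a) (κ b)).det ≠ 0 := by
  classical
  obtain ⟨κ', a, _, hspan, hli⟩ := exists_linearIndependent' ℂ (fun (c : C) (m : R) => A m c)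
  haveI : Fintype κ' := @Fintype.ofFinite _ (Finite.of_injective a ‹_›)
  have h1 : Fintype.card κ' = n := by
    rw [← hn, cols, ← hspan, finrank_span_eq_card hli]
  let e : Fin n ≃ κ' := (Fintype.equivFinOfCardEq h1).symm
  -- rows
  let M : Matrix R (Fin n) ℂ := Matrix.of fun m l => A m (a (e l))
  have hMcol : LinearIndependent ℂ M.col := by
    have h2 : M.col = ((fun (c : C) (m : R) => A m c) ∘ a) ∘ e := by
      funext l m
      rfl
    rw [h2]
    exact hli.comp e e.injective
  have hrank : M.rank = n := by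
    have := LinearIndependent.rank_matrix (M := M.transpose) hMcol
    rw [Matrix.rank_transpose] at this
    rw [this, Fintype.card_fin]
  obtain ⟨ι', b, hb, hspan', hli'⟩ := exists_linearIndependent' ℂ M.row
  haveI : Fintype ι' := @Fintype.ofFinite _ (Finite.of_injective b hb)
  have h3 : Fintype.card ι' = n := by
    rw [← hrank, Matrix.rank_eq_finrank_span_row, ← hspan', finrank_span_eq_card hli']
  let e' : Fin n ≃ ι' := (Fintype.equivFinOfCardEq h3).symm
  refine ⟨fun l => b (e' l), fun l => a (e l), ?_⟩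
  have h4 : LinearIndependent ℂ (Matrix.of fun c d => A (b (e' c)) (a (e d))).row := by
    have h5 : (Matrix.of fun c d => A (b (e' c)) (a (e d))).row = (M.row ∘ b) ∘ e' := by
      funext l m
      rfl
    rw [h5]
    exact hli'.comp e' e'.injective
  rw [Matrix.linearIndependent_rows_iff_isUnit] at h4
  exact ((Matrix.isUnit_iff_isUnit_det _).1 h4).ne_zero

end Pool.Agent.Y890.VH
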