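import Pool.Agent.Y890.VH.Poly
import Pool.Agent.Y890.VH.Minor

/-!
# Families of linear conditions and their transforms
-/

set_option autoImplicit false
set_option linter.unusedSectionVars false

open NumberField Filter

namespace Pool.Agent.Y890.VH

open Pool.Agent.Y890.MV
open Pool.Agent.Y124 (Cov)

variable {X σ Q R C h : Type} [Fintype X] [DecidableEq X] [Nonempty X] [Fintype σ] [DecidableEq σ] [Fintype Q]
  [DecidableEq Q] [Fintype R] [DecidableEq R] [Fintype C] [DecidableEq C] [Fintype h] [DecidableEq h]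

/-- the conditions `∑ c_i W_(q,i)(y) ∈` span of the columns of `A_q(y)` -/
def Inc (A : Q → R → C → MvPolynomial σ ℂ) (W : Q → h → R → MvPolynomial σ ℂ) (y : σ → ℂ) (c : h → ℂ) : Prop :=
  ∀ q, (fun m => ∑ i, c i * MvPolynomial.eval y (W q i m)) ∈ cols fun m e => MvPolynomial.eval y (A q m e)

/-- points at which some small solution of the conditions is not a solution of some transform of the conditions -/
def ExcI (f : σ → (X → ℂ) → ℂ) (Lc : Set (X → ℂ)) (K : Type) [Field K] [NumberField K] (io : K →+* ℂ)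
    (A : Q → R → C → MvPolynomial σ ℂ) (W : Q → h → R → MvPolynomial σ ℂ) (𝒢 : Set ((σ → ℂ) → (σ → ℂ)))
    (a T : ℝ) : Set (X → K) :=
  {s | (∀ j, Y120.HtLe K T (s j)) ∧ (fun j => io (s j)) ∈ Lc ∧ ∃ c : h → 𝓞 K,
    (∀ i (φ : K →+* ℂ), ‖φ (c i : K)‖ ≤ T ^ a) ∧
    Inc A W (fun y => f y fun j => io (s j)) (fun i => io (c i : K)) ∧
    ∃ g ∈ 𝒢, ¬ Inc A W (g fun y => f y fun j => io (s j)) (fun i => io (c i : K))}

theorem evX_C' {X' σ' : Type} (x : X' → ℂ) (y : σ' → ℂ) (p : MvPolynomial σ' ℂ) :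
    evX x y (MvPolynomial.map MvPolynomial.C p) = MvPolynomial.eval y p := by
  rw [evX, MvPolynomial.eval₂_map]
  have h1 : (MvPolynomial.eval x).comp (MvPolynomial.C) = RingHom.id ℂ := by
    ext z
    simp
  rw [h1]
  rfl

theorem evX_sum' {X' σ' h' : Type} [Fintype h'] (x : X' → ℂ) (y : σ' → ℂ) (G : h' → MvPolynomial X' ℂ)
    (P : h' → MvPolynomial σ' ℂ) :
    evX x y (∑ j, MvPolynomial.C (G j) * MvPolynomial.map MvPolynomial.C (P j)) =
      ∑ j, MvPolynomial.eval x (G j) * MvPolynomial.eval y (P j) := by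
  have h1 : ∀ p, evX x y p = MvPolynomial.eval₂Hom (MvPolynomial.eval x) y p := fun p => rfl
  rw [h1, map_sum]
  refine Finset.sum_congr rfl fun j _ => ?_
  rw [map_mul, MvPolynomial.eval₂Hom_C, ← h1, evX_C']

theorem exists_max_rank {U : Set (X → ℂ)} (hne : U.Nonempty) (φ : (X → ℂ) → ℕ) (b : ℕ) (hb : ∀ x ∈ U, φ x ≤ b) :
    ∃ x0 ∈ U, ∀ x ∈ U, φ x ≤ φ x0 := by
  have h1 : (φ '' U).Nonempty := hne.image φ
  have h2 : BddAbove (φ '' U) := ⟨b, by rintro _ ⟨x, hx, rfl⟩; exact hb x hx⟩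
  obtain ⟨x0, hx0, h3⟩ := Nat.sSup_mem h1 h2
  refine ⟨x0, hx0, fun x hx => ?_⟩
  rw [h3]
  exact le_csSup h2 ⟨x, hx, rfl⟩

/-- **Conditions and their transforms.** -/
theorem excI_cov {U : Set (X → ℂ)} {f : σ → (X → ℂ) → ℂ}
    (hU : IsPreconnected U) (hUo : IsOpen U) (hne : U.Nonempty) (hf : ∀ i, AnalyticOnNhd ℂ (f i) U)
    (hreg : RegularM U f) (Lc : Set (X → ℂ)) (hLc : IsCompact Lc) (hLU : Lc ⊆ U)
    (A : Q → R → C → MvPolynomial σ ℂ) (W : Q → h → R → MvPolynomial σ ℂ) (𝒢 : Set ((σ → ℂ) → (σ → ℂ)))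
    (hinv : ∀ g ∈ 𝒢, ∀ p : MvPolynomial σ (MvPolynomial X ℂ), (∀ x ∈ U, evM f x p = 0) →
      ∀ x ∈ U, evX x (g fun y => f y x) p = 0)
    (hrk : ∀ g ∈ 𝒢, ∀ x ∈ U, ∀ q, Module.finrank ℂ (cols fun m e => MvPolynomial.eval (g fun y => f y x) (A q m e)) =
      Module.finrank ℂ (cols fun m e => MvPolynomial.eval (fun y => f y x) (A q m e)))
    (m : ℕ) (a ε : ℝ) (ha : 0 ≤ a) (hε : 0 < ε) : ∃ (D : ℕ) (C' T₀ : ℝ), 0 ≤ C' ∧ 2 ≤ T₀ ∧
      ∀ (K : Type) [Field K] [NumberField K], Module.finrank ℚ K ≤ m → ∀ (io : K →+* ℂ) (T : ℝ), T₀ ≤ T →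
        Cov D ⌊C' * T ^ ε⌋₊ ((fun (s : X → K) j => io (s j)) '' ExcI f Lc K io A W 𝒢 a T) := by
  classical
  -- the generic ranks
  have hmax : ∀ q, ∃ x0 ∈ U, ∀ x ∈ U,
      Module.finrank ℂ (cols fun m e => MvPolynomial.eval (fun y => f y x) (A q m e)) ≤
      Module.finrank ℂ (cols fun m e => MvPolynomial.eval (fun y => f y x0) (A q m e)) := by
    intro q
    refine exists_max_rank hne
      (fun x => Module.finrank ℂ (cols fun m e => MvPolynomial.eval (fun y => f y x) (A q m e))) (Fintype.card R) ?_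
    intro x _
    refine (Submodule.finrank_le _).trans ?_
    rw [Module.finrank_fintype_fun_eq_card]
  choose x0 hx0 hx0max using hmax
  set n : Q → ℕ := fun q =>
    Module.finrank ℂ (cols fun m e => MvPolynomial.eval (fun y => f y (x0 q)) (A q m e)) with hn
  have hmin : ∀ q, ∃ (ι : Fin (n q) → R) (κ : Fin (n q) → C),
      (Matrix.of fun a b => MvPolynomial.eval (fun y => f y (x0 q)) (A q (ι a) (κ b))).det ≠ 0 := fun q =>
    exists_minor _ (n q) rfl
  choose ι κ hικ using hmin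
  -- the product of the minors
  set P0 : Q → MvPolynomial σ ℂ := fun q => (Matrix.of fun a b => A q (ι q a) (κ q b)).det with hP0
  have hP0ev : ∀ (q : Q) (y : σ → ℂ), MvPolynomial.eval y (P0 q) =
      (Matrix.of fun a b => MvPolynomial.eval y (A q (ι q a) (κ q b))).det := by
    intro q y
    rw [hP0, RingHom.map_det]
    rfl
  have hprime := relM_prime hU hUo hne hf
  have hP0n : ∀ q, MvPolynomial.map MvPolynomial.C (P0 q) ∉ relM U f := by
    intro q hq
    have h1 := hq (x0 q) (hx0 q)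
    rw [evM_eq, evX_C', hP0ev] at h1
    exact hικ q h1
  have hPP : MvPolynomial.map MvPolynomial.C (∏ q, P0 q) ∉ relM U f := by
    rw [map_prod]
    intro h1
    obtain ⟨q, _, hq⟩ := (hprime.prod_mem_iff).1 h1
    exact hP0n q hq
  obtain ⟨D₁, C₁, T₁, hC₁, hT₁, H₁⟩ := excP_cov hU hUo hne hf hreg Lc hLc hLU
    (fun (_ : Unit) (_ : Unit) => ∏ q, P0 q) m a ε hε
  obtain ⟨D₂, C₂, T₂, hC₂, hT₂, H₂⟩ := excP_cov hU hUo hne hf hreg Lc hLc hLU
    (fun (ρ : Σ q : Q, (Fin (n q) → R) × (Fin (n q) → C) × R) (j : h) =>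
      D ρ.2.1 ρ.2.2.1 ρ.2.2.2 (A ρ.1) (W ρ.1 j)) m a ε hε
  refine ⟨max D₁ D₂, C₁ + C₂, max T₁ T₂, by positivity, hT₁.trans (le_max_left _ _), ?_⟩
  intro K _ _ hK io T hT
  have hT1 : T₁ ≤ T := (le_max_left _ _).trans hT
  have hT2 : T₂ ≤ T := (le_max_right _ _).trans hT
  have hTp : 1 ≤ T := by linarith
  have h1 := (H₁ K hK io T hT1).mono (le_max_left D₁ D₂) le_rfl (Set.Subset.refl _)
  have h2 := (H₂ K hK io T hT2).mono (le_max_right D₁ D₂) le_rfl (Set.Subset.refl _)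
  refine (h1.union h2).mono le_rfl ?_ ?_
  · have hT0 : 0 ≤ T ^ ε := by positivity
    refine Nat.le_floor ?_
    push_cast
    rw [add_mul]
    exact add_le_add (Nat.floor_le (by positivity)) (Nat.floor_le (by positivity))
  rw [← Set.image_union]
  refine Set.image_mono ?_
  rintro s ⟨hs1, hs2, c, hc, hinc, g, hg, hng⟩
  by_contra hcon
  rw [Set.mem_union, not_or] at hcon
  obtain ⟨hcon1, hcon2⟩ := hcon
  have hsU : (fun j => io (s j)) ∈ U := hLU hs2
  set y0 : σ → ℂ := fun y => f y fun j => io (s j) with hy0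
  -- the minors do not vanish
  have h3 : MvPolynomial.eval y0 (∏ q, P0 q) ≠ 0 := by
    intro h0
    apply hcon1
    refine ⟨hs1, hs2, fun _ => 1, ?_, ?_, ?_⟩
    · intro _ φ
      have h4 : φ (((1 : 𝓞 K) : 𝓞 K) : K) = 1 := by simp
      beta_reduce
      rw [h4, norm_one]
      exact Real.one_le_rpow hTp ha
    · intro _
      rw [Fintype.sum_unique]
      rw [h0, mul_zero]
    · rintro ⟨G, hG1, hG2⟩
      have h4 : MvPolynomial.C (G ()) * MvPolynomial.map MvPolynomial.C (∏ q, P0 q) ∈ relM U f := by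
        intro x hx
        have h5 := hG2 x hx ()
        rw [Fintype.sum_unique] at h5
        rw [evM_mul, evM_C, evM_eq, evX_C']
        exact h5
      rcases hprime.mem_or_mem h4 with h5 | h5
      · have h6 := h5 _ hsU
        rw [evM_C] at h6
        have h7 := hG1 ()
        rw [h6] at h7
        simp at h7
      · exact hPP h5
  have h3' : ∀ q, MvPolynomial.eval y0 (P0 q) ≠ 0 := by
    intro q hq
    apply h3
    rw [map_prod]
    exact Finset.prod_eq_zero (Finset.mem_univ q) hq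
  have hrank : ∀ q, Module.finrank ℂ (cols fun m e => MvPolynomial.eval y0 (A q m e)) = n q := by
    intro q
    refine le_antisymm (hx0max q _ hsU) ?_
    refine rank_ge (ι q) (κ q) (fun m e => MvPolynomial.eval y0 (A q m e)) ?_
    rw [← hP0ev]
    exact h3' q
  -- the relations
  have hD : ∀ (y : σ → ℂ) (c : h → ℂ) (ρ : Σ q : Q, (Fin (n q) → R) × (Fin (n q) → C) × R),
      ∑ j, c j * MvPolynomial.eval y (D ρ.2.1 ρ.2.2.1 ρ.2.2.2 (A ρ.1) (W ρ.1 j)) =
        D ρ.2.1 ρ.2.2.1 ρ.2.2.2 (fun m e => MvPolynomial.eval y (A ρ.1 m e))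
          (fun m => ∑ j, c j * MvPolynomial.eval y (W ρ.1 j m)) := by
    intro y c ρ
    rw [D_sum]
    refine Finset.sum_congr rfl fun j _ => ?_
    rw [D_map]
  obtain ⟨G, hG1, hG2⟩ : ∃ G : h → MvPolynomial X ℂ,
      (∀ i, MvPolynomial.eval (fun j => io (s j)) (G i) = io (c i : K)) ∧
      ∀ x ∈ U, ∀ ρ : Σ q : Q, (Fin (n q) → R) × (Fin (n q) → C) × R,
        ∑ i, MvPolynomial.eval x (G i) * MvPolynomial.eval (fun y => f y x)
          (D ρ.2.1 ρ.2.2.1 ρ.2.2.2 (A ρ.1) (W ρ.1 i)) = 0 := by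
    by_contra hno
    apply hcon2
    refine ⟨hs1, hs2, c, hc, ?_, hno⟩
    intro ρ
    rw [hD]
    exact D_zero _ _ _ _ (hrank ρ.1).le _ (hinc ρ.1)
  apply hng
  intro q
  have hrg := hrk g hg _ hsU q
  rw [hrank q] at hrg
  obtain ⟨ι', κ', hικ'⟩ := exists_minor (fun m e => MvPolynomial.eval (g y0) (A q m e)) (n q) hrg
  refine D_mem ι' κ' _ hικ' _ ?_
  intro i
  have h5 := hinv g hg (∑ j, MvPolynomial.C (G j) * MvPolynomial.map MvPolynomial.C (D ι' κ' i (A q) (W q j))) (by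
    intro x hx
    rw [evM_eq, evX_sum']
    exact hG2 x hx ⟨q, ι', κ', i⟩) _ hsU
  rw [evX_sum'] at h5
  simp only [hG1] at h5
  rw [← hD (g y0) (fun j => io (c j : K)) ⟨q, ι', κ', i⟩]
  exact h5

end Pool.Agent.Y890.VH
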