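import Pool.Agent.Y890.VH.CM

/-!
# Endomorphisms and points with complex multiplication: all parameters at once
-/

set_option autoImplicit false
set_option linter.unusedSectionVars false

open NumberField Filter

namespace Pool.Agent.Y890.VH

open Pool.Agent.Y890.MV
open Pool.Agent.Y124 (Cov)

variable {H J : Type} [Fintype H] [DecidableEq H] [Fintype J] [DecidableEq J] {r : J → ℕ}
  {X : Type} [Fintype X] [DecidableEq X] [Nonempty X]

/-- the group fixes the spans of the columns of all `F_j` -/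
def Stab (Γ : Subgroup (GL H ℂ)) (y : Sg H J r → ℂ) : Set (GL H ℂ) :=
  {γ | γ ∈ Γ ∧ ∀ j, (Fil y j).map (Matrix.toLin' (γ : Matrix H H ℂ)) = Fil y j}

theorem main {U : Set (X → ℂ)} {f : Sg H J r → (X → ℂ) → ℂ}
    (hU : IsPreconnected U) (hUo : IsOpen U) (hne : U.Nonempty) (hf : ∀ i, AnalyticOnNhd ℂ (f i) U)
    (hreg : RegularM U f) (Γ : Subgroup (GL H ℂ)) (hΓ : ∀ γ ∈ Γ, MonInv U f (γ : Matrix H H ℂ)) :
    ∃ (ω : ℝ → ℕ) (T₀ : ℝ), Tendsto ω atTop atTop ∧ Monotone ω ∧ ∀ T, T₀ ≤ T → 0 < ω T ∧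
      ∀ (K : Type) [Field K] [NumberField K], Module.finrank ℚ K ≤ ω T → ∀ io : K →+* ℂ,
        Cov ⌊T ^ ((ω T : ℝ)⁻¹)⌋₊ ⌊T ^ ((ω T : ℝ)⁻¹)⌋₊
          ((fun (s : X → K) j => io (s j)) '' ExcEnd f (InnerM U (ω T)) K io Γ (ω T : ℝ) T) ∧
        (ExcEnd f (InnerM U (ω T)) K io Γ (ω T : ℝ) T).Finite ∧
        ((ExcEnd f (InnerM U (ω T)) K io Γ (ω T : ℝ) T).ncard : ℝ) ≤
          T ^ ((ω T : ℝ)⁻¹) * ({x : K | Y120.HtLe K T x}.ncard : ℝ) ^ (Fintype.card X - 1) ∧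
        (Infinite Γ → (∀ x ∈ U, (Stab Γ fun y => f y x).Finite) →
          CMPts f (InnerM U (ω T)) K io (ω T : ℝ) T ⊆ ExcEnd f (InnerM U (ω T)) K io Γ (ω T : ℝ) T) := by
  classical
  obtain ⟨ω, T₀, h1, h2, h3⟩ := omega_gen (X := X) (fun _ => Unit)
    (fun k K _ _ io _ T => ExcEnd f (InnerM U k) K io Γ (k : ℝ) T)
    (fun k K _ _ io _ T s hs => hs.1) (by
      intro k ε hε
      rcases Nat.eq_zero_or_pos k with hk | hk
      · refine ⟨0, 0, 2, le_rfl, le_rfl, ?_⟩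
        intro K _ _ hK
        have h1 : 0 < Module.finrank ℚ K := Module.finrank_pos
        omega
      obtain ⟨D, C, T₀, hC, hT₀, H⟩ := excEnd_cov hU hUo hne hf hreg Γ hΓ (InnerM U k) (innerM_compact _ _)
        (innerM_sub _ hk) k (k : ℝ) ε (Nat.cast_nonneg _) hε
      exact ⟨D, C, T₀, hC, hT₀, fun K _ _ hK io _ T hT => H K hK io T hT⟩)
  refine ⟨ω, T₀, h1, h2, fun T hT => ⟨(h3 T hT).1, fun K _ _ hK io => ?_⟩⟩
  obtain ⟨h4, h5, h6⟩ := (h3 T hT).2 K hK io ()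
  refine ⟨h4, h5, h6, fun hinf hst => ?_⟩
  exact cm_sub Γ hinf hst (innerM_sub _ (h3 T hT).1) K io _ T

end Pool.Agent.Y890.VH
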