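import Pool.Agent.Y890.VH.Ten

/-!
# Orbits of integral morphisms
-/

set_option autoImplicit false
set_option linter.unusedSectionVars false

open NumberField Filter

namespace Pool.Agent.Y890.VH

open Pool.Agent.Y890.MV
open Pool.Agent.Y124 (Cov)

variable {H J : Type} [Fintype H] [DecidableEq H] [Fintype J] [DecidableEq J] {r : J → ℕ}

theorem tpow_mul {k : Type*} [CommRing k] (a : ℕ) (γ δ : Matrix H H k) :
    tpow a (γ * δ) = tpow a γ * tpow a δ := by
  ext m m'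
  simp only [tpow, Matrix.of_apply, Matrix.mul_apply]
  rw [Finset.prod_univ_sum, Fintype.piFinset_univ]
  exact Finset.sum_congr rfl fun x _ => Finset.prod_mul_distrib

theorem tpow_one {k : Type*} [CommRing k] (a : ℕ) : tpow a (1 : Matrix H H k) = 1 := by
  ext m m'
  simp only [tpow, Matrix.of_apply]
  by_cases h : m = m'
  · subst h
    simp
  · rw [Matrix.one_apply_ne h]
    obtain ⟨i, hi⟩ := Function.ne_iff.1 h
    exact Finset.prod_eq_zero (Finset.mem_univ i) (Matrix.one_apply_ne hi)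

theorem tpow_map {k k' : Type*} [CommRing k] [CommRing k'] (φ : k →+* k') (a : ℕ) (γ : Matrix H H k) :
    (tpow a γ).map φ = tpow a (γ.map φ) := by
  ext m m'
  simp [tpow]

/-- the transform of a morphism -/
def cj {a b : ℕ} {k : Type*} [CommRing k] (γ : GL H k) (t : Matrix (Fin a → H) (Fin b → H) k) :
    Matrix (Fin a → H) (Fin b → H) k :=
  tpow a (γ : Matrix H H k) * t * tpow b ((γ⁻¹ : GL H k) : Matrix H H k)

theorem cj_map {a b : ℕ} {k k' : Type*} [CommRing k] [CommRing k'] (φ : k →+* k') (γ : GL H k)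
    (t : Matrix (Fin a → H) (Fin b → H) k) :
    (cj γ t).map φ = cj (Matrix.GeneralLinearGroup.map φ γ) (t.map φ) := by
  unfold cj
  rw [Matrix.map_mul, Matrix.map_mul, tpow_map, tpow_map, ← map_inv]
  rfl

theorem mor_cj {a b : ℕ} (S : (Fin b → J) → Set (Fin a → J)) (y : Sg H J r → ℂ)
    (t : Matrix (Fin a → H) (Fin b → H) ℂ) (γ : GL H ℂ)
    (h : Mor S (act ((γ⁻¹ : GL H ℂ) : Matrix H H ℂ) y) t) : Mor S y (cj γ t) := by
  intro j c
  have h1 := h j c
  rw [Ten_act, ten_act] at h1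
  obtain ⟨w, hw, hw'⟩ := h1
  have h2 : tpow a (γ : Matrix H H ℂ) * tpow a ((γ⁻¹ : GL H ℂ) : Matrix H H ℂ) = 1 := by
    rw [← tpow_mul, ← Units.val_mul, mul_inv_cancel, Units.val_one, tpow_one]
  have h3 : (cj γ t).mulVec (ten y j c) = w := by
    unfold cj
    rw [← Matrix.mulVec_mulVec, ← Matrix.mulVec_mulVec, ← hw', Matrix.toLin'_apply, Matrix.mulVec_mulVec, h2,
      Matrix.one_mulVec]
  rw [h3]
  exact hw

/-- a quadratic form -/
def qf {I : Type} [Fintype I] (Ψ : I → I → ℝ) (t : I → ℝ) : ℝ := ∑ i, ∑ j, Ψ i j * t i * t j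

/-- there is a quadratic form, invariant under the group, which is positive on the nonzero real morphisms at all
points -/
def Definite {a b : ℕ} {X : Type} (U : Set (X → ℂ)) (f : Sg H J r → (X → ℂ) → ℂ) (Γ : Subgroup (GL H ℤ))
    (S : (Fin b → J) → Set (Fin a → J)) : Prop :=
  ∃ Ψ : (Fin a → H) × (Fin b → H) → (Fin a → H) × (Fin b → H) → ℝ,
    (∀ γ ∈ Γ, ∀ t : Matrix (Fin a → H) (Fin b → H) ℤ,
      (qf Ψ fun i => ((cj γ t i.1 i.2 : ℤ) : ℝ)) = qf Ψ fun i => ((t i.1 i.2 : ℤ) : ℝ)) ∧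
    ∀ x ∈ U, ∀ t : Matrix (Fin a → H) (Fin b → H) ℝ, Mor S (fun y => f y x) (Matrix.of fun i j => (t i j : ℂ)) →
      t ≠ 0 → 0 < qf Ψ fun i => t i.1 i.2

theorem bdd_of_pos {V : Type} [NormedAddCommGroup V] [NormedSpace ℝ V] [FiniteDimensional ℝ V] (P : Submodule ℝ V)
    (q : V → ℝ) (hq : Continuous q) (hh : ∀ (c : ℝ) (v : V), q (c • v) = c ^ 2 * q v)
    (hpos : ∀ v ∈ P, v ≠ 0 → 0 < q v) (c : ℝ) : ∃ B : ℝ, ∀ v ∈ P, q v ≤ c → ‖v‖ ≤ B := by
  classical
  have : ProperSpace V := FiniteDimensional.proper ℝ V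
  have hK : IsCompact ((P : Set V) ∩ Metric.sphere 0 1) :=
    (isCompact_sphere (0 : V) 1).inter_left (Submodule.closed_of_finiteDimensional P)
  have hunit : ∀ v ∈ P, v ≠ 0 → ‖v‖⁻¹ • v ∈ (P : Set V) ∩ Metric.sphere 0 1 := by
    intro v hv h0
    refine ⟨P.smul_mem _ hv, ?_⟩
    rw [mem_sphere_zero_iff_norm, norm_smul, norm_inv, norm_norm, inv_mul_cancel₀ (norm_ne_zero_iff.2 h0)]
  rcases ((P : Set V) ∩ Metric.sphere 0 1).eq_empty_or_nonempty with he | hne
  · refine ⟨0, fun v hv _ => ?_⟩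
    by_cases h0 : v = 0
    · rw [h0, norm_zero]
    · exact absurd (hunit v hv h0) (by rw [he]; exact Set.notMem_empty _)
  · obtain ⟨v0, hv0, hmin⟩ := hK.exists_isMinOn hne hq.continuousOn
    have h0 : v0 ≠ 0 := by
      rintro rfl
      have := hv0.2
      simp at this
    have hδ := hpos v0 hv0.1 h0
    refine ⟨Real.sqrt (|c| / q v0), fun v hv hvc => ?_⟩
    by_cases h1 : v = 0
    · rw [h1, norm_zero]
      exact Real.sqrt_nonneg _
    have h2 : 0 < ‖v‖ := norm_pos_iff.2 h1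
    have h3 : q v0 ≤ q (‖v‖⁻¹ • v) := hmin (hunit v hv h1)
    rw [hh] at h3
    refine Real.le_sqrt_of_sq_le ?_
    rw [le_div_iff₀ hδ]
    have h4 : ‖v‖ ^ 2 * q v0 ≤ ‖v‖ ^ 2 * (‖v‖⁻¹ ^ 2 * q v) := mul_le_mul_of_nonneg_left h3 (by positivity)
    have h5 : ‖v‖ ^ 2 * (‖v‖⁻¹ ^ 2 * q v) = q v := by
      field_simp
    rw [h5] at h4
    exact h4.trans (hvc.trans (le_abs_self c))

theorem orbit_finite {a b : ℕ} {X : Type} {U : Set (X → ℂ)} {f : Sg H J r → (X → ℂ) → ℂ} {Γ : Subgroup (GL H ℤ)}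
    {S : (Fin b → J) → Set (Fin a → J)} (hD : Definite U f Γ S) (x : X → ℂ) (hx : x ∈ U)
    (t : Matrix (Fin a → H) (Fin b → H) ℤ)
    (h : ∀ γ ∈ Γ, Mor S (act ((Matrix.GeneralLinearGroup.map (Int.castRingHom ℂ) γ : GL H ℂ) : Matrix H H ℂ)
      fun y => f y x) (t.map (Int.castRingHom ℂ))) :
    {t' | ∃ γ ∈ Γ, t' = cj γ t}.Finite := by
  classical
  obtain ⟨Ψ, hΨ1, hΨ2⟩ := hD
  let toC : ((Fin a → H) → (Fin b → H) → ℝ) → Matrix (Fin a → H) (Fin b → H) ℂ := fun t => Matrix.of fun i j => (t i j : ℂ)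
  let P : Submodule ℝ ((Fin a → H) → (Fin b → H) → ℝ) :=
    { carrier := {t | Mor S (fun y => f y x) (toC t)}
      add_mem' := by
        intro t t' h1 h2 j c
        have h3 : toC (t + t') = toC t + toC t' := by
          ext i j
          simp [toC]
        rw [h3, Matrix.add_mulVec]
        exact Submodule.add_mem _ (h1 j c) (h2 j c)
      zero_mem' := by
        intro j c
        have h3 : toC 0 = 0 := by
          ext i j
          simp [toC]
        rw [h3, Matrix.zero_mulVec]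
        exact Submodule.zero_mem _
      smul_mem' := by
        intro z t h1 j c
        have h3 : toC (z • t) = (z : ℂ) • toC t := by
          ext i j
          simp [toC]
        rw [h3, Matrix.smul_mulVec]
        exact Submodule.smul_mem _ _ (h1 j c) }
  let q : ((Fin a → H) → (Fin b → H) → ℝ) → ℝ := fun t => qf Ψ fun i => t i.1 i.2
  have hq : Continuous q := by
    simp only [q, qf]
    fun_prop
  have hh : ∀ (c : ℝ) (v : (Fin a → H) → (Fin b → H) → ℝ), q (c • v) = c ^ 2 * q v := by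
    intro c v
    simp only [q, qf, Finset.mul_sum, Pi.smul_apply, smul_eq_mul]
    refine Finset.sum_congr rfl fun i _ => Finset.sum_congr rfl fun j _ => ?_
    ring
  have hpos : ∀ v ∈ P, v ≠ 0 → 0 < q v := fun v hv h0 => hΨ2 x hx (Matrix.of v) hv (by
    intro h1
    apply h0
    have := congrArg Matrix.of.symm h1
    exact this)
  set t0 : (Fin a → H) → (Fin b → H) → ℝ := fun i j => ((t i j : ℤ) : ℝ) with ht0
  obtain ⟨B, hB⟩ := bdd_of_pos P q hq hh hpos (q t0)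
  have hfin : {t' : (Fin a → H) → (Fin b → H) → ℤ | ∀ i j, |t' i j| ≤ ⌈B⌉}.Finite := by
    refine (Set.finite_Icc (fun _ _ => -⌈B⌉ : (Fin a → H) → (Fin b → H) → ℤ) (fun _ _ => ⌈B⌉)).subset ?_
    intro t' ht'
    exact ⟨fun i j => (abs_le.1 (ht' i j)).1, fun i j => (abs_le.1 (ht' i j)).2⟩
  refine Set.Finite.subset (hfin.image Matrix.of) ?_
  rintro _ ⟨γ, hγ, rfl⟩
  refine ⟨Matrix.of.symm (cj γ t), ?_, by simp⟩
  intro i j
  have h1 : (fun i j => ((cj γ t i j : ℤ) : ℝ) : (Fin a → H) → (Fin b → H) → ℝ) ∈ P := by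
    change Mor S (fun y => f y x) (toC _)
    have h2 := mor_cj S (fun y => f y x) (t.map (Int.castRingHom ℂ))
      (Matrix.GeneralLinearGroup.map (Int.castRingHom ℂ) γ) (by
        have h3 := h γ⁻¹ (Γ.inv_mem hγ)
        rw [map_inv] at h3
        exact h3)
    rw [← cj_map] at h2
    convert h2 using 1
    ext i j
    simp [toC]
  have h2 := hB _ h1 (le_of_eq (hΨ1 γ hγ t))
  have h3 : ‖((cj γ t i j : ℤ) : ℝ)‖ ≤ B := by
    refine le_trans ?_ h2
    refine le_trans ?_ (norm_le_pi_norm _ i)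
    exact norm_le_pi_norm (fun j => ((cj γ t i j : ℤ) : ℝ)) j
  rw [Real.norm_eq_abs] at h3
  have h4 : ((|cj γ t i j| : ℤ) : ℝ) ≤ (⌈B⌉ : ℤ) := by
    push_cast
    exact h3.trans (Int.le_ceil B)
  exact_mod_cast h4

end Pool.Agent.Y890.VH
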