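import Pool.Agent.Y890.MV.TorExc

/-!
# Linear relations with polynomial coefficients
-/

set_option autoImplicit false
set_option linter.unusedSectionVars false

open NumberField Filter

namespace Pool.Agent.Y890.VH

open Pool.Agent.Y890.MV
open Pool.Agent.Y890.SP (Qbar)
open Pool.Agent.Y124 (Cov)

variable {X σ : Type} [Fintype σ] [DecidableEq σ] {δ : ℕ}

/-- exponents in a box -/
noncomputable def toF (l : σ → Fin (δ + 1)) : σ →₀ ℕ := Finsupp.equivFunOnFinite.symm fun y => (l y : ℕ)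

theorem toF_apply (l : σ → Fin (δ + 1)) (y : σ) : toF l y = (l y : ℕ) := rfl

theorem toF_inj : Function.Injective (toF (σ := σ) (δ := δ)) := by
  intro l l' h
  funext y
  have := DFunLike.congr_fun h y
  rw [toF_apply, toF_apply] at this
  exact Fin.ext this

theorem eval_box (P : MvPolynomial σ ℂ) (hP : ∀ y, P.degreeOf y ≤ δ) (w : σ → ℂ) :
    MvPolynomial.eval w P = ∑ l : σ → Fin (δ + 1), P.coeff (toF l) * ∏ y, w y ^ (l y : ℕ) := by
  classical
  have h1 : ∀ l : σ → Fin (δ + 1), ∏ y, w y ^ (l y : ℕ) = ∏ y, w y ^ (toF l y) := fun l => rfl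
  simp only [h1]
  rw [MvPolynomial.eval_eq']
  rw [← Finset.sum_image (f := fun u : σ →₀ ℕ => P.coeff u * ∏ y, w y ^ (u y)) (fun a _ b _ hab => toF_inj hab)]
  refine Finset.sum_subset_zero_on_sdiff ?_ ?_ ?_
  · intro u hu
    rw [Finset.mem_image]
    refine ⟨fun y => ⟨u y, Nat.lt_succ_of_le ?_⟩, Finset.mem_univ _, ?_⟩
    · refine le_trans ?_ (hP y)
      rw [MvPolynomial.degreeOf_eq_sup]
      exact Finset.le_sup (f := fun m : σ →₀ ℕ => m y) hu
    · ext y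
      rfl
  · intro u hu
    rw [Finset.mem_sdiff, MvPolynomial.notMem_support_iff] at hu
    rw [hu.2, zero_mul]
  · intro u _
    rfl

variable {h r : Type} [Fintype h] [DecidableEq h] [Fintype r] [DecidableEq r]

theorem sysM_iff (f : σ → (X → ℂ) → ℂ) (P : r → h → MvPolynomial σ ℂ) (hP : ∀ ρ i y, (P ρ i).degreeOf y ≤ δ)
    (x : X → ℂ) (c : h → ℂ) : SysM (δ := δ) f (fun ρ l i => (P ρ i).coeff (toF l)) x c ↔
      ∀ ρ, ∑ i, c i * MvPolynomial.eval (fun y => f y x) (P ρ i) = 0 := by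
  unfold SysM
  refine forall_congr' fun ρ => ?_
  have h1 : ∑ l : σ → Fin (δ + 1), (∑ i, (P ρ i).coeff (toF l) * c i) * ∏ y, f y x ^ (l y : ℕ) =
      ∑ i, c i * MvPolynomial.eval (fun y => f y x) (P ρ i) := by
    simp only [eval_box (P ρ _) (hP ρ _), Finset.mul_sum, Finset.sum_mul]
    rw [Finset.sum_comm]
    refine Finset.sum_congr rfl fun i _ => Finset.sum_congr rfl fun l _ => ?_
    ring
  rw [h1]

/-- points at which a solution in small integers of the relations is not the specialization of a solution in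
polynomials -/
def ExcP (U : Set (X → ℂ)) (f : σ → (X → ℂ) → ℂ) (Lc : Set (X → ℂ)) (K : Type) [Field K] [NumberField K]
    (io : K →+* ℂ) (P : r → h → MvPolynomial σ ℂ) (A T : ℝ) : Set (X → K) :=
  {s | (∀ j, Y120.HtLe K T (s j)) ∧ (fun j => io (s j)) ∈ Lc ∧ ∃ c : h → 𝓞 K,
    (∀ i (φ : K →+* ℂ), ‖φ (c i : K)‖ ≤ T ^ A) ∧
    (∀ ρ, ∑ i, io (c i : K) * MvPolynomial.eval (fun y => f y fun j => io (s j)) (P ρ i) = 0) ∧
    ¬ ∃ G : h → MvPolynomial X ℂ, (∀ i, MvPolynomial.eval (fun j => io (s j)) (G i) = io (c i : K)) ∧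
      ∀ x ∈ U, ∀ ρ, ∑ i, MvPolynomial.eval x (G i) * MvPolynomial.eval (fun y => f y x) (P ρ i) = 0}

theorem excP_cov [Fintype X] [DecidableEq X] [Nonempty X] {U : Set (X → ℂ)} {f : σ → (X → ℂ) → ℂ}
    (hU : IsPreconnected U) (hUo : IsOpen U) (hne : U.Nonempty) (hf : ∀ i, AnalyticOnNhd ℂ (f i) U)
    (hreg : RegularM U f) (Lc : Set (X → ℂ)) (hLc : IsCompact Lc) (hLU : Lc ⊆ U)
    (P : r → h → MvPolynomial σ ℂ) (m : ℕ) (A ε : ℝ) (hε : 0 < ε) : ∃ (D : ℕ) (C T₀ : ℝ), 0 ≤ C ∧ 2 ≤ T₀ ∧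
      ∀ (K : Type) [Field K] [NumberField K], Module.finrank ℚ K ≤ m → ∀ (io : K →+* ℂ) (T : ℝ), T₀ ≤ T →
        Cov D ⌊C * T ^ ε⌋₊ ((fun (s : X → K) j => io (s j)) '' ExcP U f Lc K io P A T) := by
  classical
  set δ : ℕ := ∑ ρ, ∑ i, ∑ y, (P ρ i).degreeOf y with hδ
  have hP : ∀ ρ i y, (P ρ i).degreeOf y ≤ δ := by
    intro ρ i y
    have h1 : (P ρ i).degreeOf y ≤ ∑ y, (P ρ i).degreeOf y :=
      Finset.single_le_sum (f := fun y => (P ρ i).degreeOf y) (fun _ _ => Nat.zero_le _) (Finset.mem_univ y)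
    have h2 : ∑ y, (P ρ i).degreeOf y ≤ ∑ i, ∑ y, (P ρ i).degreeOf y :=
      Finset.single_le_sum (f := fun i => ∑ y, (P ρ i).degreeOf y) (fun _ _ => Nat.zero_le _) (Finset.mem_univ i)
    have h3 : ∑ i, ∑ y, (P ρ i).degreeOf y ≤ δ :=
      Finset.single_le_sum (f := fun ρ => ∑ i, ∑ y, (P ρ i).degreeOf y) (fun _ _ => Nat.zero_le _)
        (Finset.mem_univ ρ)
    exact h1.trans (h2.trans h3)
  obtain ⟨D, C, T₀, hC, hT₀, H⟩ := excM_cov stmZ stmClose stmCharts hU hUo hne hf hreg Lc hLc hLU δ h r m A ε hε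
  refine ⟨D, C, T₀, hC, hT₀, fun K _ _ hK io T hT => ?_⟩
  refine (H K hK io (fun ρ l i => (P ρ i).coeff (toF l)) T hT).mono le_rfl le_rfl (Set.image_mono ?_)
  rintro s ⟨h1, h2, c, h3, h4, h5⟩
  refine ⟨h1, h2, c, h3, ?_, ?_⟩
  · rw [sysM_iff f P hP]
    exact h4
  · rintro ⟨G, hG1, hG2⟩
    apply h5
    have hae : ∀ (x : X → ℂ) (p : MvPolynomial X Qbar),
        MvPolynomial.eval x (MvPolynomial.map (algebraMap Qbar ℂ) p) = MvPolynomial.aeval x p := by
      intro x p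
      rw [MvPolynomial.eval_map]
      rfl
    refine ⟨fun i => MvPolynomial.map (algebraMap Qbar ℂ) (G i), fun i => ?_, fun x hx => ?_⟩
    · rw [hae]
      exact hG1 i
    · have h6 := hG2 x hx
      rw [sysM_iff f P hP] at h6
      intro ρ
      simp only [hae]
      exact h6 ρ

end Pool.Agent.Y890.VH
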