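import Pool.Agent.Y890.VH.TenMain

/-!
# Conditions with arbitrary constants
-/

set_option autoImplicit false
set_option linter.unusedSectionVars false

open NumberField Filter

namespace Pool.Agent.Y890.VH

open Pool.Agent.Y890.MV
open Pool.Agent.Y890.SP (Qbar)
open Pool.Agent.Y124 (Cov)

section Uni

variable {X σ : Type} [Fintype σ] [DecidableEq σ] {h r : Type} [Fintype h] [DecidableEq h] [Fintype r]
  [DecidableEq r]

/-- the polynomials may vary -/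
theorem excP_unif [Fintype X] [DecidableEq X] [Nonempty X] {U : Set (X → ℂ)} {f : σ → (X → ℂ) → ℂ}
    (hU : IsPreconnected U) (hUo : IsOpen U) (hne : U.Nonempty) (hf : ∀ i, AnalyticOnNhd ℂ (f i) U)
    (hreg : RegularM U f) (Lc : Set (X → ℂ)) (hLc : IsCompact Lc) (hLU : Lc ⊆ U)
    (δ : ℕ) (m : ℕ) (A ε : ℝ) (hε : 0 < ε) : ∃ (D : ℕ) (C T₀ : ℝ), 0 ≤ C ∧ 2 ≤ T₀ ∧
      ∀ (K : Type) [Field K] [NumberField K], Module.finrank ℚ K ≤ m → ∀ (io : K →+* ℂ)
        (P : r → h → MvPolynomial σ ℂ), (∀ ρ i y, (P ρ i).degreeOf y ≤ δ) → ∀ T : ℝ, T₀ ≤ T →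
        Cov D ⌊C * T ^ ε⌋₊ ((fun (s : X → K) j => io (s j)) '' ExcP U f Lc K io P A T) := by
  classical
  obtain ⟨D, C, T₀, hC, hT₀, H⟩ := excM_cov stmZ stmClose stmCharts hU hUo hne hf hreg Lc hLc hLU δ h r m A ε hε
  refine ⟨D, C, T₀, hC, hT₀, fun K _ _ hK io P hP T hT => ?_⟩
  refine (H K hK io (fun ρ l i => (P ρ i).coeff (toF l)) T hT).mono le_rfl le_rfl (Set.image_mono ?_)
  rintro s ⟨h1, h2, c, h3, h4, h5⟩
  refine ⟨h1, h2, c, h3, ?_, ?_⟩
  · rw [sysM_iff f P hP]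
    exact h4
  · rintro ⟨G, hG1, hG2⟩
    apply h5
    have hae : ∀ (x : X → ℂ) (p : MvPolynomial X Qbar),
        MvPolynomial.eval x (MvPolynomial.map (algebraMap Qbar ℂ) p) = MvPolynomial.aeval x p := by
      intro x p
      rw [MvPolynomial.eval_map]
      rfl
    refine ⟨fun i => MvPolynomial.map (algebraMap Qbar ℂ) (G i), fun i => ?_, fun x hx => ?_⟩
    · rw [hae]
      exact hG1 i
    · have h6 := hG2 x hx
      rw [sysM_iff f P hP] at h6
      intro ρ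
      simp only [hae]
      exact h6 ρ

end Uni

theorem D_smul {k : Type*} [CommRing k] {R C : Type} {n : ℕ} (ι : Fin n → R) (κ : Fin n → C) (i : R)
    (A : R → C → k) (c : k) (w : R → k) : D ι κ i A (fun m => c * w m) = c * D ι κ i A w := by
  have h1 := D_sum ι κ i {()} A (fun _ => c) (fun _ => w)
  simpa using h1

variable {X σ Q R C h gg : Type} [Fintype X] [DecidableEq X] [Nonempty X] [Fintype σ] [DecidableEq σ] [Fintype Q]
  [DecidableEq Q] [Fintype R] [DecidableEq R] [Fintype C] [DecidableEq C] [Fintype h] [DecidableEq h] [Fintype gg]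
  [DecidableEq gg]

/-- vectors with constants -/
noncomputable def WW (w : Q → gg → ℂ) (W : Q → h → R → MvPolynomial σ ℂ) (q : Q) (ij : gg × h) (m : R) :
    MvPolynomial σ ℂ := MvPolynomial.C (w q ij.1) * W q ij.2 m

/-- **Conditions with arbitrary constants and their transforms.** -/
theorem excI_unif {U : Set (X → ℂ)} {f : σ → (X → ℂ) → ℂ}
    (hU : IsPreconnected U) (hUo : IsOpen U) (hne : U.Nonempty) (hf : ∀ i, AnalyticOnNhd ℂ (f i) U)
    (hreg : RegularM U f) (Lc : Set (X → ℂ)) (hLc : IsCompact Lc) (hLU : Lc ⊆ U)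
    (A : Q → R → C → MvPolynomial σ ℂ) (W : Q → h → R → MvPolynomial σ ℂ) (𝒢 : Set ((σ → ℂ) → (σ → ℂ)))
    (hinv : ∀ g ∈ 𝒢, ∀ p : MvPolynomial σ (MvPolynomial X ℂ), (∀ x ∈ U, evM f x p = 0) →
      ∀ x ∈ U, evX x (g fun y => f y x) p = 0)
    (hrk : ∀ g ∈ 𝒢, ∀ x ∈ U, ∀ q, Module.finrank ℂ (cols fun m e => MvPolynomial.eval (g fun y => f y x) (A q m e)) =
      Module.finrank ℂ (cols fun m e => MvPolynomial.eval (fun y => f y x) (A q m e)))
    (m : ℕ) (a ε : ℝ) (ha : 0 ≤ a) (hε : 0 < ε) : ∃ (D : ℕ) (C' T₀ : ℝ), 0 ≤ C' ∧ 2 ≤ T₀ ∧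
      ∀ (K : Type) [Field K] [NumberField K], Module.finrank ℚ K ≤ m → ∀ (io : K →+* ℂ) (w : Q → gg → ℂ) (T : ℝ),
        T₀ ≤ T → Cov D ⌊C' * T ^ ε⌋₊ ((fun (s : X → K) j => io (s j)) '' ExcI f Lc K io A (WW w W) 𝒢 a T) := by
  classical
  -- the generic ranks
  have hmax : ∀ q, ∃ x0 ∈ U, ∀ x ∈ U,
      Module.finrank ℂ (cols fun m e => MvPolynomial.eval (fun y => f y x) (A q m e)) ≤
      Module.finrank ℂ (cols fun m e => MvPolynomial.eval (fun y => f y x0) (A q m e)) := by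
    intro q
    refine exists_max_rank hne
      (fun x => Module.finrank ℂ (cols fun m e => MvPolynomial.eval (fun y => f y x) (A q m e))) (Fintype.card R) ?_
    intro x _
    refine (Submodule.finrank_le _).trans ?_
    rw [Module.finrank_fintype_fun_eq_card]
  choose x0 hx0 hx0max using hmax
  set n : Q → ℕ := fun q =>
    Module.finrank ℂ (cols fun m e => MvPolynomial.eval (fun y => f y (x0 q)) (A q m e)) with hn
  have hmin : ∀ q, ∃ (ι : Fin (n q) → R) (κ : Fin (n q) → C),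
      (Matrix.of fun a b => MvPolynomial.eval (fun y => f y (x0 q)) (A q (ι a) (κ b))).det ≠ 0 := fun q =>
    exists_minor _ (n q) rfl
  choose ι κ hικ using hmin
  -- the product of the minors
  set P0 : Q → MvPolynomial σ ℂ := fun q => (Matrix.of fun a b => A q (ι q a) (κ q b)).det with hP0
  have hP0ev : ∀ (q : Q) (y : σ → ℂ), MvPolynomial.eval y (P0 q) =
      (Matrix.of fun a b => MvPolynomial.eval y (A q (ι q a) (κ q b))).det := by
    intro q y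
    rw [hP0, RingHom.map_det]
    rfl
  have hprime := relM_prime hU hUo hne hf
  have hP0n : ∀ q, MvPolynomial.map MvPolynomial.C (P0 q) ∉ relM U f := by
    intro q hq
    have h1 := hq (x0 q) (hx0 q)
    rw [evM_eq, evX_C', hP0ev] at h1
    exact hικ q h1
  have hPP : MvPolynomial.map MvPolynomial.C (∏ q, P0 q) ∉ relM U f := by
    rw [map_prod]
    intro h1
    obtain ⟨q, _, hq⟩ := (hprime.prod_mem_iff).1 h1
    exact hP0n q hq
  obtain ⟨D₁, C₁, T₁, hC₁, hT₁, H₁⟩ := excP_cov hU hUo hne hf hreg Lc hLc hLU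
    (fun (_ : Unit) (_ : Unit) => ∏ q, P0 q) m a ε hε
  set δ : ℕ := ∑ ρ : (Σ q : Q, (Fin (n q) → R) × (Fin (n q) → C) × R), ∑ j : h, ∑ y : σ,
    (D ρ.2.1 ρ.2.2.1 ρ.2.2.2 (A ρ.1) (W ρ.1 j)).degreeOf y with hδ
  have hdeg : ∀ (w : Q → gg → ℂ) (ρ : Σ q : Q, (Fin (n q) → R) × (Fin (n q) → C) × R) (ij : gg × h) (y : σ),
      (D ρ.2.1 ρ.2.2.1 ρ.2.2.2 (A ρ.1) (WW w W ρ.1 ij)).degreeOf y ≤ δ := by
    intro w ρ ij y
    have h1 : D ρ.2.1 ρ.2.2.1 ρ.2.2.2 (A ρ.1) (WW w W ρ.1 ij) =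
        MvPolynomial.C (w ρ.1 ij.1) * D ρ.2.1 ρ.2.2.1 ρ.2.2.2 (A ρ.1) (W ρ.1 ij.2) := D_smul _ _ _ _ _ _
    rw [h1]
    refine (MvPolynomial.degreeOf_C_mul_le _ _ _).trans ?_
    have h2 : (D ρ.2.1 ρ.2.2.1 ρ.2.2.2 (A ρ.1) (W ρ.1 ij.2)).degreeOf y ≤
        ∑ y : σ, (D ρ.2.1 ρ.2.2.1 ρ.2.2.2 (A ρ.1) (W ρ.1 ij.2)).degreeOf y :=
      Finset.single_le_sum (f := fun y => (D ρ.2.1 ρ.2.2.1 ρ.2.2.2 (A ρ.1) (W ρ.1 ij.2)).degreeOf y)
        (fun _ _ => Nat.zero_le _) (Finset.mem_univ y)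
    have h3 : ∑ y : σ, (D ρ.2.1 ρ.2.2.1 ρ.2.2.2 (A ρ.1) (W ρ.1 ij.2)).degreeOf y ≤
        ∑ j : h, ∑ y : σ, (D ρ.2.1 ρ.2.2.1 ρ.2.2.2 (A ρ.1) (W ρ.1 j)).degreeOf y :=
      Finset.single_le_sum (f := fun j => ∑ y : σ, (D ρ.2.1 ρ.2.2.1 ρ.2.2.2 (A ρ.1) (W ρ.1 j)).degreeOf y)
        (fun _ _ => Nat.zero_le _) (Finset.mem_univ ij.2)
    have h4 : ∑ j : h, ∑ y : σ, (D ρ.2.1 ρ.2.2.1 ρ.2.2.2 (A ρ.1) (W ρ.1 j)).degreeOf y ≤ δ :=
      Finset.single_le_sum (f := fun ρ : (Σ q : Q, (Fin (n q) → R) × (Fin (n q) → C) × R) => ∑ j : h, ∑ y : σ,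
        (D ρ.2.1 ρ.2.2.1 ρ.2.2.2 (A ρ.1) (W ρ.1 j)).degreeOf y) (fun _ _ => Nat.zero_le _) (Finset.mem_univ ρ)
    exact h2.trans (h3.trans h4)
  obtain ⟨D₂, C₂, T₂, hC₂, hT₂, H₂⟩ := excP_unif (r := Σ q : Q, (Fin (n q) → R) × (Fin (n q) → C) × R) (h := gg × h)
    hU hUo hne hf hreg Lc hLc hLU δ m a ε hε
  refine ⟨max D₁ D₂, C₁ + C₂, max T₁ T₂, by positivity, hT₁.trans (le_max_left _ _), ?_⟩
  intro K _ _ hK io w T hT
  have hT1 : T₁ ≤ T := (le_max_left _ _).trans hT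
  have hT2 : T₂ ≤ T := (le_max_right _ _).trans hT
  have hTp : 1 ≤ T := by linarith
  have h1 := (H₁ K hK io T hT1).mono (le_max_left D₁ D₂) le_rfl (Set.Subset.refl _)
  have h2 := (H₂ K hK io (fun ρ ij => D ρ.2.1 ρ.2.2.1 ρ.2.2.2 (A ρ.1) (WW w W ρ.1 ij))
    (fun ρ ij y => hdeg w ρ ij y) T hT2).mono (le_max_right D₁ D₂) le_rfl (Set.Subset.refl _)
  refine (h1.union h2).mono le_rfl ?_ ?_
  · have hT0 : 0 ≤ T ^ ε := by positivity
    refine Nat.le_floor ?_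
    push_cast
    rw [add_mul]
    exact add_le_add (Nat.floor_le (by positivity)) (Nat.floor_le (by positivity))
  rw [← Set.image_union]
  refine Set.image_mono ?_
  rintro s ⟨hs1, hs2, c, hc, hinc, g, hg, hng⟩
  by_contra hcon
  rw [Set.mem_union, not_or] at hcon
  obtain ⟨hcon1, hcon2⟩ := hcon
  have hsU : (fun j => io (s j)) ∈ U := hLU hs2
  set y0 : σ → ℂ := fun y => f y fun j => io (s j) with hy0
  -- the minors do not vanish
  have h3 : MvPolynomial.eval y0 (∏ q, P0 q) ≠ 0 := by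
    intro h0
    apply hcon1
    refine ⟨hs1, hs2, fun _ => 1, ?_, ?_, ?_⟩
    · intro _ φ
      have h4 : φ (((1 : 𝓞 K) : 𝓞 K) : K) = 1 := by simp
      beta_reduce
      rw [h4, norm_one]
      exact Real.one_le_rpow hTp ha
    · intro _
      rw [Fintype.sum_unique]
      rw [h0, mul_zero]
    · rintro ⟨G, hG1, hG2⟩
      have h4 : MvPolynomial.C (G ()) * MvPolynomial.map MvPolynomial.C (∏ q, P0 q) ∈ relM U f := by
        intro x hx
        have h5 := hG2 x hx ()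
        rw [Fintype.sum_unique] at h5
        rw [evM_mul, evM_C, evM_eq, evX_C']
        exact h5
      rcases hprime.mem_or_mem h4 with h5 | h5
      · have h6 := h5 _ hsU
        rw [evM_C] at h6
        have h7 := hG1 ()
        rw [h6] at h7
        simp at h7
      · exact hPP h5
  have h3' : ∀ q, MvPolynomial.eval y0 (P0 q) ≠ 0 := by
    intro q hq
    apply h3
    rw [map_prod]
    exact Finset.prod_eq_zero (Finset.mem_univ q) hq
  have hrank : ∀ q, Module.finrank ℂ (cols fun m e => MvPolynomial.eval y0 (A q m e)) = n q := by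
    intro q
    refine le_antisymm (hx0max q _ hsU) ?_
    refine rank_ge (ι q) (κ q) (fun m e => MvPolynomial.eval y0 (A q m e)) ?_
    rw [← hP0ev]
    exact h3' q
  -- the relations
  have hD : ∀ (y : σ → ℂ) (c : gg × h → ℂ) (ρ : Σ q : Q, (Fin (n q) → R) × (Fin (n q) → C) × R),
      ∑ j, c j * MvPolynomial.eval y (D ρ.2.1 ρ.2.2.1 ρ.2.2.2 (A ρ.1) (WW w W ρ.1 j)) =
        D ρ.2.1 ρ.2.2.1 ρ.2.2.2 (fun m e => MvPolynomial.eval y (A ρ.1 m e))
          (fun m => ∑ j, c j * MvPolynomial.eval y (WW w W ρ.1 j m)) := by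
    intro y c ρ
    rw [D_sum]
    refine Finset.sum_congr rfl fun j _ => ?_
    rw [D_map]
  obtain ⟨G, hG1, hG2⟩ : ∃ G : gg × h → MvPolynomial X ℂ,
      (∀ i, MvPolynomial.eval (fun j => io (s j)) (G i) = io (c i : K)) ∧
      ∀ x ∈ U, ∀ ρ : Σ q : Q, (Fin (n q) → R) × (Fin (n q) → C) × R,
        ∑ i, MvPolynomial.eval x (G i) * MvPolynomial.eval (fun y => f y x)
          (D ρ.2.1 ρ.2.2.1 ρ.2.2.2 (A ρ.1) (WW w W ρ.1 i)) = 0 := by
    by_contra hno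
    apply hcon2
    refine ⟨hs1, hs2, c, hc, ?_, hno⟩
    intro ρ
    rw [hD]
    exact D_zero _ _ _ _ (hrank ρ.1).le _ (hinc ρ.1)
  apply hng
  intro q
  have hrg := hrk g hg _ hsU q
  rw [hrank q] at hrg
  obtain ⟨ι', κ', hικ'⟩ := exists_minor (fun m e => MvPolynomial.eval (g y0) (A q m e)) (n q) hrg
  refine D_mem ι' κ' _ hικ' _ ?_
  intro i
  have h5 := hinv g hg (∑ j, MvPolynomial.C (G j) * MvPolynomial.map MvPolynomial.C (D ι' κ' i (A q) (WW w W q j))) (by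
    intro x hx
    rw [evM_eq, evX_sum']
    exact hG2 x hx ⟨q, ι', κ', i⟩) _ hsU
  rw [evX_sum'] at h5
  simp only [hG1] at h5
  rw [← hD (g y0) (fun j => io (c j : K)) ⟨q, ι', κ', i⟩]
  exact h5

end Pool.Agent.Y890.VH
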