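import Pool.Agent.Y890.VH.Rel

/-!
# Morphisms from a fixed structure: all parameters at once
-/

set_option autoImplicit false
set_option linter.unusedSectionVars false

open NumberField Filter

namespace Pool.Agent.Y890.VH

open Pool.Agent.Y890.MV
open Pool.Agent.Y124 (Cov)

variable {H J : Type} [Fintype H] [DecidableEq H] [Fintype J] [DecidableEq J] {r : J → ℕ}

theorem wt_mulVec {a b : ℕ} (y : Sg H J r → ℂ) (t : Matrix (Fin a → H) (Fin b → H) ℂ) (q : Cx J r b) :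
    (fun m => ∑ ab : (Fin a → H) × (Fin b → H), t ab.1 ab.2 * MvPolynomial.eval y (WT q ab m)) =
      t.mulVec (ten y q.1 q.2) := by
  classical
  funext m
  rw [Fintype.sum_prod_type, Finset.sum_eq_single m]
  · simp [WT, Matrix.mulVec, dotProduct, ten]
  · intro b' _ hb
    refine Finset.sum_eq_zero fun d _ => ?_
    simp [WT, Ne.symm hb]
  · simp

/-- the linear combinations `∑ v p i • t i`, `p < k`, are of types `S p` -/
def RelMor {a b k : ℕ} (v : ℕ → ℕ → ℂ) (S : Fin k → (Fin b → J) → Set (Fin a → J)) (y : Sg H J r → ℂ)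
    (t : Fin k → Matrix (Fin a → H) (Fin b → H) ℂ) : Prop :=
  ∀ p : Fin k, Mor (S p) y (∑ i : Fin k, v p i • t i)

/-- the matrices of the conditions -/
noncomputable def AR {a b k : ℕ} (S : Fin k → (Fin b → J) → Set (Fin a → J)) (q : Fin k × Cx J r b) (m : Fin a → H)
    (e : Cx J r a) : MvPolynomial (Sg H J r) ℂ := AT (S q.1) q.2 m e

theorem incR_iff {a b k : ℕ} (v : ℕ → ℕ → ℂ) (S : Fin k → (Fin b → J) → Set (Fin a → J)) (y : Sg H J r → ℂ)
    (t : Fin k → Matrix (Fin a → H) (Fin b → H) ℂ) :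
    Inc (AR S) (WW (fun (q : Fin k × Cx J r b) (i : Fin k) => v q.1 i) fun q => WT q.2) y
      (fun x : Fin k × ((Fin a → H) × (Fin b → H)) => t x.1 x.2.1 x.2.2) ↔ RelMor v S y t := by
  classical
  have h1 : ∀ (p : Fin k) (q : Cx J r b), (fun m => ∑ x : Fin k × ((Fin a → H) × (Fin b → H)), t x.1 x.2.1 x.2.2 *
      MvPolynomial.eval y (WW (fun (q : Fin k × Cx J r b) (i : Fin k) => v q.1 i) (fun q => WT q.2) (p, q) x m)) =
      (∑ i : Fin k, v p i • t i).mulVec (ten y q.1 q.2) := by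
    intro p q
    rw [← wt_mulVec]
    funext m
    rw [Fintype.sum_prod_type_right]
    refine Finset.sum_congr rfl fun ab _ => ?_
    rw [Matrix.sum_apply, Finset.sum_mul]
    refine Finset.sum_congr rfl fun i _ => ?_
    simp only [WW, map_mul, MvPolynomial.eval_C, Matrix.smul_apply, smul_eq_mul]
    ring
  constructor
  · intro hI p j c
    have h2 := hI (p, ⟨j, c⟩)
    rw [h1] at h2
    have h3 := cols_AT (S p) y (⟨j, c⟩ : Cx J r b)
    rw [← h3]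
    exact h2
  · rintro hP ⟨p, q⟩
    rw [h1]
    have h3 := cols_AT (S p) y q
    have h4 := hP p q.1 q.2
    rw [← h3] at h4
    exact h4

variable {X : Type} [Fintype X] [DecidableEq X] [Nonempty X]

/-- points with small tensors, given combinations of which are of types `S p`, but not after transformation by some
element of the group -/
def ExcRelS {a b k : ℕ} (S : Fin k → (Fin b → J) → Set (Fin a → J)) (f : Sg H J r → (X → ℂ) → ℂ) (Lc : Set (X → ℂ))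
    (K : Type) [Field K] [NumberField K] (io : K →+* ℂ) (Γ : Subgroup (GL H ℂ)) (v : ℕ → ℕ → ℂ) (A T : ℝ) :
    Set (X → K) :=
  {s | (∀ j, Y120.HtLe K T (s j)) ∧ (fun j => io (s j)) ∈ Lc ∧
    ∃ t : Fin k → Matrix (Fin a → H) (Fin b → H) (𝓞 K), (∀ p i j (φ : K →+* ℂ), ‖φ (t p i j : K)‖ ≤ T ^ A) ∧
    RelMor v S (fun y => f y fun j => io (s j)) (fun p => Matrix.of fun i j => io (t p i j : K)) ∧
    ∃ γ ∈ Γ, ¬ RelMor v S (act (γ : Matrix H H ℂ) fun y => f y fun j => io (s j))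
      (fun p => Matrix.of fun i j => io (t p i j : K))}

theorem excRelS_cov {a b k : ℕ} (S : Fin k → (Fin b → J) → Set (Fin a → J)) {U : Set (X → ℂ)}
    {f : Sg H J r → (X → ℂ) → ℂ}
    (hU : IsPreconnected U) (hUo : IsOpen U) (hne : U.Nonempty) (hf : ∀ i, AnalyticOnNhd ℂ (f i) U)
    (hreg : RegularM U f) (Γ : Subgroup (GL H ℂ)) (hΓ : ∀ γ ∈ Γ, MonInv U f (γ : Matrix H H ℂ))
    (Lc : Set (X → ℂ)) (hLc : IsCompact Lc) (hLU : Lc ⊆ U)
    (m : ℕ) (A ε : ℝ) (ha : 0 ≤ A) (hε : 0 < ε) : ∃ (D : ℕ) (C' T₀ : ℝ), 0 ≤ C' ∧ 2 ≤ T₀ ∧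
      ∀ (K : Type) [Field K] [NumberField K], Module.finrank ℚ K ≤ m → ∀ (io : K →+* ℂ) (v : ℕ → ℕ → ℂ) (T : ℝ),
        T₀ ≤ T → Cov D ⌊C' * T ^ ε⌋₊ ((fun (s : X → K) j => io (s j)) '' ExcRelS S f Lc K io Γ v A T) := by
  classical
  obtain ⟨D, C', T₀, hC, hT₀, hcov⟩ := excI_unif (U := U) (f := f) (gg := Fin k) hU hUo hne hf hreg Lc hLc hLU
    (AR (H := H) (r := r) S) (fun q => WT q.2) {g | ∃ γ ∈ Γ, g = act (γ : Matrix H H ℂ)} (by
      rintro _ ⟨γ, hγ, rfl⟩ p hp x hx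
      exact hΓ γ hγ p hp x hx) (by
      rintro _ ⟨γ, hγ, rfl⟩ x _ q
      have h1 := cols_AT (S q.1) (act (γ : Matrix H H ℂ) fun y => f y x) q.2
      have h2 := cols_AT (S q.1) (fun y => f y x) q.2
      have h3 := finrank_Ten_act γ (fun y => f y x) (S q.1 q.2.1)
      rw [← h1, ← h2] at h3
      exact h3) m A ε ha hε
  refine ⟨D, C', T₀, hC, hT₀, fun K _ _ hK io v T hT => ?_⟩
  refine (hcov K hK io (fun q i => v q.1 i) T hT).mono le_rfl le_rfl (Set.image_mono ?_)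
  rintro s ⟨h1, h2, t, ht, hP, γ, hγ, hn⟩
  refine ⟨h1, h2, fun x => t x.1 x.2.1 x.2.2, fun x φ => ht _ _ _ φ, ?_, _, ⟨γ, hγ, rfl⟩, ?_⟩
  · have h3 := (incR_iff v S (fun y => f y fun j => io (s j)) (fun p => Matrix.of fun i j => io (t p i j : K))).2 hP
    exact h3
  · intro h3
    exact hn ((incR_iff v S _ (fun p => Matrix.of fun i j => io (t p i j : K))).1 h3)

/-- finite unions -/
theorem cov_iUnionP {I P : Type} [Fintype I]
    (E : ∀ (K : Type) [Field K] [NumberField K], (K →+* ℂ) → P → I → ℝ → Set (X → K)) (m : ℕ) (ε : ℝ)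
    (hcov : ∀ i, ∃ (D : ℕ) (C T₀ : ℝ), 0 ≤ C ∧ 2 ≤ T₀ ∧
      ∀ (K : Type) [Field K] [NumberField K], Module.finrank ℚ K ≤ m → ∀ (io : K →+* ℂ) (p : P) (T : ℝ), T₀ ≤ T →
        Cov D ⌊C * T ^ ε⌋₊ ((fun (s : X → K) j => io (s j)) '' E K io p i T)) :
    ∃ (D : ℕ) (C T₀ : ℝ), 0 ≤ C ∧ 2 ≤ T₀ ∧
      ∀ (K : Type) [Field K] [NumberField K], Module.finrank ℚ K ≤ m → ∀ (io : K →+* ℂ) (p : P) (T : ℝ), T₀ ≤ T →
        Cov D ⌊C * T ^ ε⌋₊ ((fun (s : X → K) j => io (s j)) '' {s | ∃ i, s ∈ E K io p i T}) := by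
  classical
  choose D C T₀ hC hT₀ hcov using hcov
  have hC' : ∀ i, C i ≤ ∑ i, C i := fun i =>
    Finset.single_le_sum (f := C) (fun j _ => hC j) (Finset.mem_univ i)
  have hT' : ∀ i, T₀ i ≤ ∑ i, T₀ i := fun i =>
    Finset.single_le_sum (f := T₀) (fun j _ => by linarith [hT₀ j]) (Finset.mem_univ i)
  have hT0 : 0 ≤ ∑ i, T₀ i := Finset.sum_nonneg fun j _ => by linarith [hT₀ j]
  have hD' : ∀ i, D i ≤ ∑ i, D i := fun i =>
    Finset.single_le_sum (f := D) (fun j _ => Nat.zero_le _) (Finset.mem_univ i)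
  refine ⟨∑ i, D i, Fintype.card I * ∑ i, C i, 2 + ∑ i, T₀ i, ?_, by linarith, ?_⟩
  · exact mul_nonneg (Nat.cast_nonneg _) (Finset.sum_nonneg fun j _ => hC j)
  intro K _ _ hK io p T hT
  have hTp : 0 ≤ T ^ ε := Real.rpow_nonneg (by linarith) _
  have h1 := Cov.biUnion (D := ∑ i, D i) (m := ⌊(∑ i, C i) * T ^ ε⌋₊) (Finset.univ : Finset I)
    (fun i => (fun (s : X → K) j => io (s j)) '' E K io p i T) (fun i _ => by
      refine (hcov i K hK io p T ?_).mono (hD' i) (Nat.floor_mono ?_) (Set.Subset.refl _)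
      · linarith [hT' i]
      · exact mul_le_mul_of_nonneg_right (hC' i) hTp)
  refine h1.mono le_rfl ?_ ?_
  · rw [Finset.card_univ]
    refine Nat.le_floor ?_
    push_cast
    rw [mul_assoc]
    refine mul_le_mul_of_nonneg_left (Nat.floor_le ?_) (Nat.cast_nonneg _)
    exact mul_nonneg (Finset.sum_nonneg fun j _ => hC j) hTp
  · rintro _ ⟨s, ⟨i, hi⟩, rfl⟩
    rw [Set.mem_iUnion₂]
    exact ⟨i, Finset.mem_univ _, s, hi, rfl⟩

/-- points with `k` tensors of size at most `T ^ k` between tensor powers of exponents at most `k`, the combinations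
of which with coefficients `v p i`, `i, p < k`, are of some types `S p`, but not after transformation by some element of
the group -/
def ExcRel (f : Sg H J r → (X → ℂ) → ℂ) (Lc : Set (X → ℂ)) (K : Type) [Field K] [NumberField K] (io : K →+* ℂ)
    (Γ : Subgroup (GL H ℂ)) (v : ℕ → ℕ → ℂ) (k : ℕ) (T : ℝ) : Set (X → K) :=
  {s | ∃ a b : ℕ, a ≤ k ∧ b ≤ k ∧ ∃ S : Fin k → (Fin b → J) → Set (Fin a → J),
    s ∈ ExcRelS S f Lc K io Γ v (k : ℝ) T}

theorem excRel_cov {U : Set (X → ℂ)} {f : Sg H J r → (X → ℂ) → ℂ}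
    (hU : IsPreconnected U) (hUo : IsOpen U) (hne : U.Nonempty) (hf : ∀ i, AnalyticOnNhd ℂ (f i) U)
    (hreg : RegularM U f) (Γ : Subgroup (GL H ℂ)) (hΓ : ∀ γ ∈ Γ, MonInv U f (γ : Matrix H H ℂ))
    (Lc : Set (X → ℂ)) (hLc : IsCompact Lc) (hLU : Lc ⊆ U) (k : ℕ) (ε : ℝ) (hε : 0 < ε) :
    ∃ (D : ℕ) (C' T₀ : ℝ), 0 ≤ C' ∧ 2 ≤ T₀ ∧
      ∀ (K : Type) [Field K] [NumberField K], Module.finrank ℚ K ≤ k → ∀ (io : K →+* ℂ) (v : ℕ → ℕ → ℂ) (T : ℝ),
        T₀ ≤ T → Cov D ⌊C' * T ^ ε⌋₊ ((fun (s : X → K) j => io (s j)) '' ExcRel f Lc K io Γ v k T) := by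
  classical
  obtain ⟨D, C', T₀, hC, hT₀, h⟩ := cov_iUnionP (X := X) (P := ℕ → ℕ → ℂ)
    (I := Σ ab : Fin (k + 1) × Fin (k + 1), Fin k → (Fin (ab.2 : ℕ) → J) → Set (Fin (ab.1 : ℕ) → J))
    (fun K _ _ io v i T => ExcRelS i.2 f Lc K io Γ v (k : ℝ) T) k ε
    (fun i => excRelS_cov i.2 hU hUo hne hf hreg Γ hΓ Lc hLc hLU k (k : ℝ) ε (Nat.cast_nonneg _) hε)
  refine ⟨D, C', T₀, hC, hT₀, fun K _ _ hK io v T hT => ?_⟩
  refine (h K hK io v T hT).mono le_rfl le_rfl (Set.image_mono ?_)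
  rintro s ⟨a, b, ha, hb, S, hs⟩
  exact ⟨⟨(⟨a, Nat.lt_succ_of_le ha⟩, ⟨b, Nat.lt_succ_of_le hb⟩), S⟩, hs⟩

/-- points at which the column spaces are images of the column spaces of a fixed tuple of matrices by a small matrix,
and are not all stable by the group -/
def HeckePts (f : Sg H J r → (X → ℂ) → ℂ) (Lc : Set (X → ℂ)) (K : Type) [Field K] [NumberField K] (io : K →+* ℂ)
    (Γ : Subgroup (GL H ℂ)) {H' : Type} [Fintype H'] [DecidableEq H'] {r' : J → ℕ} (y' : Sg H' J r' → ℂ) (k : ℕ)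
    (T : ℝ) : Set (X → K) :=
  {s | (∀ j, Y120.HtLe K T (s j)) ∧ (fun j => io (s j)) ∈ Lc ∧ ∃ M : Matrix H H' (𝓞 K),
    (∀ i j (φ : K →+* ℂ), ‖φ (M i j : K)‖ ≤ T ^ (k : ℝ)) ∧
    (∀ j, (Fil y' j).map (Matrix.toLin' (Matrix.of fun i j => io (M i j : K))) =
      Fil (fun y => f y fun j => io (s j)) j) ∧
    ∃ γ ∈ Γ, ∃ j, (Fil (fun y => f y fun j => io (s j)) j).map (Matrix.toLin' (γ : Matrix H H ℂ)) ≠
      Fil (fun y => f y fun j => io (s j)) j}

end Pool.Agent.Y890.VH
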