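import Pool.Agent.Y890.VH.Hecke

/-!
# Morphisms from a fixed structure to the endomorphisms
-/

set_option autoImplicit false
set_option linter.unusedSectionVars false

open NumberField Filter

namespace Pool.Agent.Y890.VH

open Pool.Agent.Y890.MV
open Pool.Agent.Y124 (Cov)

variable {H J : Type} [Fintype H] [DecidableEq H] [Fintype J] [DecidableEq J] {r : J → ℕ}

/-- the only stable subspace containing `F` is the whole space -/
def Gens (Γ : Subgroup (GL H ℂ)) (F : Submodule ℂ (H → ℂ)) : Prop :=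
  ∀ W : Submodule ℂ (H → ℂ), (∀ γ ∈ Γ, W.map (Matrix.toLin' (γ : Matrix H H ℂ)) ≤ W) → F ≤ W → W = ⊤

/-- an endomorphism as a matrix for the first tensor power -/
def M1 {k₀ : Type*} (A : Matrix H H k₀) : Matrix (Fin 1 → H) (Fin 1 → H) k₀ := Matrix.of fun m m' => A (m 0) (m' 0)

theorem M1_mulVec (A : Matrix H H ℂ) (y : Sg H J r → ℂ) (j : Fin 1 → J) (c : ∀ i, Fin (r (j i))) :
    (M1 A).mulVec (ten y j c) = fun m => A.mulVec (fun h => y ⟨j 0, (h, c 0)⟩) (m 0) := by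
  funext m
  simp only [Matrix.mulVec, dotProduct, M1, ten, Matrix.of_apply, Fin.prod_univ_succ, Fin.prod_univ_zero, mul_one]
  exact Fintype.sum_equiv (Equiv.funUnique (Fin 1) H) _ _ fun m' => rfl

theorem M1_comb {k : ℕ} (v : ℕ → ℕ → ℂ) (t : Fin k → Matrix H H ℂ) (p : Fin k) :
    (∑ i : Fin k, v p i • M1 (t i)) = M1 (∑ i : Fin k, v p i • t i) := by
  ext m m'
  simp [M1, Matrix.sum_apply]

theorem lift_mem (S : Set J) (y : Sg H J r → ℂ) (w : H → ℂ) (hw : w ∈ ⨆ j' ∈ S, Fil y j') :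
    (fun m : Fin 1 → H => w (m 0)) ∈ Ten {j' : Fin 1 → J | j' 0 ∈ S} y := by
  have h1 : (⨆ j' ∈ S, Fil y j') ≤ (Ten {j' : Fin 1 → J | j' 0 ∈ S} y).comap
      (LinearMap.funLeft ℂ ℂ fun (m : Fin 1 → H) => m 0) := by
    refine iSup₂_le fun j hj => Submodule.span_le.2 ?_
    rintro _ ⟨c, rfl⟩
    change (LinearMap.funLeft ℂ ℂ fun (m : Fin 1 → H) => m 0) (fun m => y ⟨j, (m, c)⟩) ∈
      Ten {j' : Fin 1 → J | j' 0 ∈ S} y
    refine Submodule.subset_span ⟨fun _ => j, hj, fun _ => c, ?_⟩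
    funext m
    simp [LinearMap.funLeft, ten]
  exact h1 hw

variable {X : Type} [Fintype X] [DecidableEq X] [Nonempty X]

/-- points with `k` endomorphisms of size at most `T ^ k`, of which the combinations with coefficients `v p i` are not
all `0`, kill the column space of `F_j0`, and map the column space of `F_j` to the sum of the column spaces of the `F_j'`,
`j' ∈ S p j`, for some `S` -/
def SigmaPts (f : Sg H J r → (X → ℂ) → ℂ) (Lc : Set (X → ℂ)) (K : Type) [Field K] [NumberField K] (io : K →+* ℂ)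
    (j0 : J) (v : ℕ → ℕ → ℂ) (k : ℕ) (T : ℝ) : Set (X → K) :=
  {s | (∀ j, Y120.HtLe K T (s j)) ∧ (fun j => io (s j)) ∈ Lc ∧ ∃ t : Fin k → Matrix H H (𝓞 K),
    (∀ p i j (φ : K →+* ℂ), ‖φ (t p i j : K)‖ ≤ T ^ (k : ℝ)) ∧
    (∃ S : Fin k → J → Set J, ∀ p : Fin k, S p j0 = ∅ ∧ ∀ j, (Fil (fun y => f y fun j => io (s j)) j).map
      (Matrix.toLin' (∑ i : Fin k, v p i • Matrix.of fun m m' => io (t i m m' : K))) ≤
        ⨆ j' ∈ S p j, Fil (fun y => f y fun j => io (s j)) j') ∧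
    ∃ p : Fin k, (∑ i : Fin k, v p i • Matrix.of fun m m' => io (t i m m' : K)) ≠ 0}

theorem sigma_sub {U : Set (X → ℂ)} (f : Sg H J r → (X → ℂ) → ℂ) (Γ : Subgroup (GL H ℂ)) (j0 : J)
    (hgen : ∀ x ∈ U, Gens Γ (Fil (fun y => f y x) j0)) (k : ℕ) (hk : 0 < k) {Lc : Set (X → ℂ)} (hLU : Lc ⊆ U)
    (K : Type) [Field K] [NumberField K] (io : K →+* ℂ) (v : ℕ → ℕ → ℂ) (T : ℝ) :
    SigmaPts f Lc K io j0 v k T ⊆ ExcRel f Lc K io Γ v k T := by
  classical
  rintro s ⟨hs1, hs2, t, ht, ⟨S, hS⟩, p0, hp0⟩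
  set y0 : Sg H J r → ℂ := fun y => f y fun j => io (s j) with hy0
  set tc : Fin k → Matrix H H ℂ := fun i => Matrix.of fun m m' => io (t i m m' : K) with htc
  have hmap : (fun p => Matrix.of fun i j => io ((M1 (t p) i j : 𝓞 K) : K) :
      Fin k → Matrix (Fin 1 → H) (Fin 1 → H) ℂ) = fun p => M1 (tc p) := by
    funext p
    ext m m'
    simp [M1, htc]
  have hcon : ¬ ∀ γ ∈ Γ, RelMor v (fun p (j : Fin 1 → J) => {j' : Fin 1 → J | j' 0 ∈ S p (j 0)})
      (act (γ : Matrix H H ℂ) y0) (fun p => M1 (tc p)) := by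
    intro hall
    apply hp0
    set A : Matrix H H ℂ := ∑ i : Fin k, v p0 i • tc i with hA
    let W : Submodule ℂ (H → ℂ) :=
      { carrier := {w | ∀ γ ∈ Γ, A.mulVec ((γ : Matrix H H ℂ).mulVec w) = 0}
        add_mem' := by
          intro w w' h1 h2 γ hγ
          rw [Matrix.mulVec_add, Matrix.mulVec_add, h1 γ hγ, h2 γ hγ, add_zero]
        zero_mem' := by
          intro γ _
          rw [Matrix.mulVec_zero, Matrix.mulVec_zero]
        smul_mem' := by
          intro z w h1 γ hγ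
          rw [Matrix.mulVec_smul, Matrix.mulVec_smul, h1 γ hγ, smul_zero] }
    have hW : W = ⊤ := by
      refine hgen _ (hLU hs2) W ?_ ?_
      · intro δ hδ
        rintro _ ⟨w, hw, rfl⟩
        intro γ hγ
        have h1 := hw (γ * δ) (Γ.mul_mem hγ hδ)
        rw [Units.val_mul, ← Matrix.mulVec_mulVec] at h1
        exact h1
      · refine Submodule.span_le.2 ?_
        rintro _ ⟨c, rfl⟩
        intro γ hγ
        have h1 := hall γ hγ p0 (fun _ => j0) (fun _ => c)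
        rw [M1_comb, M1_mulVec] at h1
        have h2 : Ten ({j' : Fin 1 → J | j' 0 ∈ S p0 j0}) (act (γ : Matrix H H ℂ) y0) = ⊥ := by
          rw [(hS p0).1]
          unfold Ten
          rw [Submodule.span_eq_bot]
          rintro w ⟨j, hj, _⟩
          exact absurd hj (Set.notMem_empty _)
        beta_reduce at h1
        rw [h2, Submodule.mem_bot] at h1
        funext m
        have h3 := congrFun h1 fun _ => m
        exact h3
    ext m m'
    have h1 : (Pi.single m' (1 : ℂ) : H → ℂ) ∈ W := by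
      rw [hW]
      exact Submodule.mem_top
    have h2 := h1 1 Γ.one_mem
    rw [Units.val_one, Matrix.one_mulVec] at h2
    have h3 := congrFun h2 m
    rw [Matrix.mulVec_single_one] at h3
    exact h3
  push Not at hcon
  obtain ⟨γ, hγ, hn⟩ := hcon
  refine ⟨1, 1, hk, hk, fun p (j : Fin 1 → J) => {j' : Fin 1 → J | j' 0 ∈ S p (j 0)}, hs1, hs2,
    fun p => M1 (t p), ?_, ?_, γ, hγ, ?_⟩
  · intro p m m' φ
    exact ht p _ _ φ
  · rw [hmap]
    intro p j c
    rw [M1_comb, M1_mulVec]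
    refine lift_mem (S p (j 0)) y0 _ ((hS p).2 (j 0) ?_)
    exact ⟨_, Submodule.subset_span ⟨c 0, rfl⟩, rfl⟩
  · rw [hmap]
    exact hn

/-- the set is finite, on at most `T ^ (1 / w)` hypersurfaces of degree at most `T ^ (1 / w)`, and has at most
`T ^ (1 / w) * N ^ (|X| - 1)` elements, `N` being the number of elements of `K` of height at most `T` -/
def Few {K : Type} [Field K] [NumberField K] (io : K →+* ℂ) (T : ℝ) (w : ℕ) (E : Set (X → K)) : Prop :=
  Cov ⌊T ^ ((w : ℝ)⁻¹)⌋₊ ⌊T ^ ((w : ℝ)⁻¹)⌋₊ ((fun (s : X → K) j => io (s j)) '' E) ∧ E.Finite ∧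
    (E.ncard : ℝ) ≤ T ^ ((w : ℝ)⁻¹) * ({x : K | Y120.HtLe K T x}.ncard : ℝ) ^ (Fintype.card X - 1)

theorem Few.mono {K : Type} [Field K] [NumberField K] {io : K →+* ℂ} {T : ℝ} {w : ℕ} {E E' : Set (X → K)}
    (h : Few io T w E') (hE : E ⊆ E') : Few io T w E := by
  refine ⟨h.1.mono le_rfl le_rfl (Set.image_mono hE), h.2.1.subset hE, le_trans ?_ h.2.2⟩
  exact_mod_cast Set.ncard_le_ncard hE h.2.1

end Pool.Agent.Y890.VH
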