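import Pool.Agent.Y890.VH.CM

/-!
# Morphisms between tensor powers of filtrations
-/

set_option autoImplicit false
set_option linter.unusedSectionVars false

open NumberField Filter

namespace Pool.Agent.Y890.VH

open Pool.Agent.Y890.MV
open Pool.Agent.Y124 (Cov)

variable {H J : Type} [Fintype H] [DecidableEq H] [Fintype J] [DecidableEq J] {r : J → ℕ}

/-- the tensor product of the columns `c i` of the matrices `F_(j i)` -/
def ten {a : ℕ} (y : Sg H J r → ℂ) (j : Fin a → J) (c : ∀ i, Fin (r (j i))) (m : Fin a → H) : ℂ :=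
  ∏ i, y ⟨j i, (m i, c i)⟩

/-- the sum of the tensor products of the column spaces of `F_(j 0)`, .., `F_(j (a - 1))`, for `j ∈ S` -/
def Ten {a : ℕ} (S : Set (Fin a → J)) (y : Sg H J r → ℂ) : Submodule ℂ ((Fin a → H) → ℂ) :=
  Submodule.span ℂ {w | ∃ j ∈ S, ∃ c : ∀ i, Fin (r (j i)), w = ten y j c}

/-- `t` maps the tensor product of the column spaces of `F_(j 0)`, .., `F_(j (b - 1))` to `Ten (S j)` -/
def Mor {a b : ℕ} (S : (Fin b → J) → Set (Fin a → J)) (y : Sg H J r → ℂ)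
    (t : Matrix (Fin a → H) (Fin b → H) ℂ) : Prop :=
  ∀ (j : Fin b → J) (c : ∀ i, Fin (r (j i))), t.mulVec (ten y j c) ∈ Ten (S j) y

/-- the tensor power of a matrix -/
def tpow {k : Type*} [CommRing k] (a : ℕ) (γ : Matrix H H k) : Matrix (Fin a → H) (Fin a → H) k :=
  Matrix.of fun m m' => ∏ i, γ (m i) (m' i)

theorem ten_act {a : ℕ} (γ : Matrix H H ℂ) (y : Sg H J r → ℂ) (j : Fin a → J) (c : ∀ i, Fin (r (j i))) :
    ten (act γ y) j c = (tpow a γ).mulVec (ten y j c) := by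
  funext m
  simp only [ten, act, Matrix.mulVec, dotProduct, tpow, Matrix.of_apply]
  rw [Finset.prod_univ_sum, Fintype.piFinset_univ]
  refine Finset.sum_congr rfl fun m' _ => ?_
  rw [Finset.prod_mul_distrib]

theorem Ten_act {a : ℕ} (γ : Matrix H H ℂ) (y : Sg H J r → ℂ) (S : Set (Fin a → J)) :
    Ten S (act γ y) = (Ten S y).map (Matrix.toLin' (tpow a γ)) := by
  unfold Ten
  rw [Submodule.map_span]
  congr 1
  ext w
  constructor
  · rintro ⟨j, hj, c, rfl⟩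
    exact ⟨ten y j c, ⟨j, hj, c, rfl⟩, (ten_act γ y j c).symm⟩
  · rintro ⟨_, ⟨j, hj, c, rfl⟩, rfl⟩
    exact ⟨j, hj, c, (ten_act γ y j c).symm⟩

theorem finrank_Ten_act {a : ℕ} (γ : GL H ℂ) (y : Sg H J r → ℂ) (S : Set (Fin a → J)) :
    Module.finrank ℂ (Ten S (act (γ : Matrix H H ℂ) y)) = Module.finrank ℂ (Ten S y) := by
  refine le_antisymm ?_ ?_
  · rw [Ten_act]
    exact Submodule.finrank_map_le _ _
  · have h1 := Ten_act ((γ⁻¹ : GL H ℂ) : Matrix H H ℂ) (act (γ : Matrix H H ℂ) y) S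
    rw [act_inv] at h1
    rw [h1]
    exact Submodule.finrank_map_le _ _

/-- indices of the tensor products of columns -/
abbrev Cx (J : Type) (r : J → ℕ) (a : ℕ) : Type := Σ j : Fin a → J, ∀ i, Fin (r (j i))

open Classical in
/-- the matrices of the conditions -/
noncomputable def AT {a b : ℕ} (S : (Fin b → J) → Set (Fin a → J)) (q : Cx J r b) (m : Fin a → H) (e : Cx J r a) :
    MvPolynomial (Sg H J r) ℂ :=
  if e.1 ∈ S q.1 then ∏ i, MvPolynomial.X ⟨e.1 i, (m i, e.2 i)⟩ else 0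

/-- the vectors of the conditions -/
noncomputable def WT {a b : ℕ} (q : Cx J r b) (ab : (Fin a → H) × (Fin b → H)) (m : Fin a → H) :
    MvPolynomial (Sg H J r) ℂ :=
  if m = ab.1 then ∏ i, MvPolynomial.X ⟨q.1 i, (ab.2 i, q.2 i)⟩ else 0

theorem cols_AT {a b : ℕ} (S : (Fin b → J) → Set (Fin a → J)) (y : Sg H J r → ℂ) (q : Cx J r b) :
    (cols fun m e => MvPolynomial.eval y (AT S q m e)) = Ten (S q.1) y := by
  classical
  refine le_antisymm (Submodule.span_le.2 ?_) (Submodule.span_le.2 ?_)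
  · rintro _ ⟨e, rfl⟩
    by_cases h : e.1 ∈ S q.1
    · refine Submodule.subset_span ⟨e.1, h, e.2, ?_⟩
      funext m
      simp [AT, h, ten]
    · have h1 : (fun m => MvPolynomial.eval y (AT (H := H) S q m e)) = 0 := by
        funext m
        simp [AT, h]
      beta_reduce
      rw [h1]
      exact Submodule.zero_mem _
  · rintro _ ⟨j, hj, c, rfl⟩
    refine Submodule.subset_span ⟨⟨j, c⟩, ?_⟩
    funext m
    simp [AT, hj, ten]

theorem incT_iff {a b : ℕ} (S : (Fin b → J) → Set (Fin a → J)) (y : Sg H J r → ℂ)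
    (t : Matrix (Fin a → H) (Fin b → H) ℂ) :
    Inc (AT S) WT y (fun ab : (Fin a → H) × (Fin b → H) => t ab.1 ab.2) ↔ Mor S y t := by
  classical
  have h1 : ∀ q : Cx J r b, (fun m => ∑ ab : (Fin a → H) × (Fin b → H), t ab.1 ab.2 *
      MvPolynomial.eval y (WT q ab m)) = t.mulVec (ten y q.1 q.2) := by
    intro q
    funext m
    rw [Fintype.sum_prod_type, Finset.sum_eq_single m]
    · simp [WT, Matrix.mulVec, dotProduct, ten]
    · intro b' _ hb
      refine Finset.sum_eq_zero fun d _ => ?_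
      simp [WT, Ne.symm hb]
    · simp
  constructor
  · intro hI j c
    have h2 := hI ⟨j, c⟩
    rw [h1, cols_AT] at h2
    exact h2
  · intro hP q
    rw [h1, cols_AT]
    exact hP q.1 q.2

variable {X : Type} [Fintype X] [DecidableEq X] [Nonempty X]

/-- points with a small morphism some conjugate of which is not a morphism -/
def ExcMor {a b : ℕ} (S : (Fin b → J) → Set (Fin a → J)) (f : Sg H J r → (X → ℂ) → ℂ) (Lc : Set (X → ℂ)) (K : Type)
    [Field K] [NumberField K] (io : K →+* ℂ) (Γ : Subgroup (GL H ℂ)) (A T : ℝ) : Set (X → K) :=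
  {s | (∀ j, Y120.HtLe K T (s j)) ∧ (fun j => io (s j)) ∈ Lc ∧ ∃ t : Matrix (Fin a → H) (Fin b → H) (𝓞 K),
    (∀ i j (φ : K →+* ℂ), ‖φ (t i j : K)‖ ≤ T ^ A) ∧
    Mor S (fun y => f y fun j => io (s j)) (Matrix.of fun i j => io (t i j : K)) ∧
    ∃ γ ∈ Γ, ¬ Mor S (act (γ : Matrix H H ℂ) fun y => f y fun j => io (s j)) (Matrix.of fun i j => io (t i j : K))}

theorem excMor_cov {a b : ℕ} (S : (Fin b → J) → Set (Fin a → J)) {U : Set (X → ℂ)} {f : Sg H J r → (X → ℂ) → ℂ}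
    (hU : IsPreconnected U) (hUo : IsOpen U) (hne : U.Nonempty) (hf : ∀ i, AnalyticOnNhd ℂ (f i) U)
    (hreg : RegularM U f) (Γ : Subgroup (GL H ℂ)) (hΓ : ∀ γ ∈ Γ, MonInv U f (γ : Matrix H H ℂ))
    (Lc : Set (X → ℂ)) (hLc : IsCompact Lc) (hLU : Lc ⊆ U)
    (m : ℕ) (A ε : ℝ) (ha : 0 ≤ A) (hε : 0 < ε) : ∃ (D : ℕ) (C' T₀ : ℝ), 0 ≤ C' ∧ 2 ≤ T₀ ∧
      ∀ (K : Type) [Field K] [NumberField K], Module.finrank ℚ K ≤ m → ∀ (io : K →+* ℂ) (T : ℝ), T₀ ≤ T →
        Cov D ⌊C' * T ^ ε⌋₊ ((fun (s : X → K) j => io (s j)) '' ExcMor S f Lc K io Γ A T) := by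
  classical
  obtain ⟨D, C', T₀, hC, hT₀, hcov⟩ := excI_cov (U := U) (f := f) hU hUo hne hf hreg Lc hLc hLU
    (AT (H := H) S) WT {g | ∃ γ ∈ Γ, g = act (γ : Matrix H H ℂ)} (by
      rintro _ ⟨γ, hγ, rfl⟩ p hp x hx
      exact hΓ γ hγ p hp x hx) (by
      rintro _ ⟨γ, hγ, rfl⟩ x _ q
      rw [cols_AT, cols_AT]
      exact finrank_Ten_act γ _ _) m A ε ha hε
  refine ⟨D, C', T₀, hC, hT₀, fun K _ _ hK io T hT => ?_⟩
  refine (hcov K hK io T hT).mono le_rfl le_rfl (Set.image_mono ?_)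
  rintro s ⟨h1, h2, M, hM, hP, γ, hγ, hn⟩
  refine ⟨h1, h2, fun ab => M ab.1 ab.2, fun ab φ => hM _ _ φ, ?_, _, ⟨γ, hγ, rfl⟩, ?_⟩
  · have h3 := (incT_iff S (fun y => f y fun j => io (s j)) (Matrix.of fun i j => io (M i j : K))).2 hP
    exact h3
  · intro h3
    exact hn ((incT_iff S _ (Matrix.of fun i j => io (M i j : K))).1 h3)

end Pool.Agent.Y890.VH
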