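import Pool.Agent.Y890.VH.Orb
import Pool.Agent.Y890.VH.Main

/-!
# Hodge tensors of bounded complexity: all parameters at once
-/

set_option autoImplicit false
set_option linter.unusedSectionVars false

open NumberField Filter

namespace Pool.Agent.Y890.VH

open Pool.Agent.Y890.MV
open Pool.Agent.Y124 (Cov)

variable {H J : Type} [Fintype H] [DecidableEq H] [Fintype J] [DecidableEq J] {r : J → ℕ}
  {X : Type} [Fintype X] [DecidableEq X] [Nonempty X]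

/-- finite unions -/
theorem cov_iUnion {I : Type} [Fintype I]
    (E : ∀ (K : Type) [Field K] [NumberField K], (K →+* ℂ) → I → ℝ → Set (X → K)) (m : ℕ) (ε : ℝ)
    (hcov : ∀ i, ∃ (D : ℕ) (C T₀ : ℝ), 0 ≤ C ∧ 2 ≤ T₀ ∧
      ∀ (K : Type) [Field K] [NumberField K], Module.finrank ℚ K ≤ m → ∀ (io : K →+* ℂ) (T : ℝ), T₀ ≤ T →
        Cov D ⌊C * T ^ ε⌋₊ ((fun (s : X → K) j => io (s j)) '' E K io i T)) :
    ∃ (D : ℕ) (C T₀ : ℝ), 0 ≤ C ∧ 2 ≤ T₀ ∧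
      ∀ (K : Type) [Field K] [NumberField K], Module.finrank ℚ K ≤ m → ∀ (io : K →+* ℂ) (T : ℝ), T₀ ≤ T →
        Cov D ⌊C * T ^ ε⌋₊ ((fun (s : X → K) j => io (s j)) '' {s | ∃ i, s ∈ E K io i T}) := by
  classical
  choose D C T₀ hC hT₀ hcov using hcov
  have hC' : ∀ i, C i ≤ ∑ i, C i := fun i =>
    Finset.single_le_sum (f := C) (fun j _ => hC j) (Finset.mem_univ i)
  have hT' : ∀ i, T₀ i ≤ ∑ i, T₀ i := fun i =>
    Finset.single_le_sum (f := T₀) (fun j _ => by linarith [hT₀ j]) (Finset.mem_univ i)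
  have hT0 : 0 ≤ ∑ i, T₀ i := Finset.sum_nonneg fun j _ => by linarith [hT₀ j]
  have hD' : ∀ i, D i ≤ ∑ i, D i := fun i =>
    Finset.single_le_sum (f := D) (fun j _ => Nat.zero_le _) (Finset.mem_univ i)
  refine ⟨∑ i, D i, Fintype.card I * ∑ i, C i, 2 + ∑ i, T₀ i, ?_, by linarith, ?_⟩
  · exact mul_nonneg (Nat.cast_nonneg _) (Finset.sum_nonneg fun j _ => hC j)
  intro K _ _ hK io T hT
  have hTp : 0 ≤ T ^ ε := Real.rpow_nonneg (by linarith) _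
  have h1 := Cov.biUnion (D := ∑ i, D i) (m := ⌊(∑ i, C i) * T ^ ε⌋₊) (Finset.univ : Finset I)
    (fun i => (fun (s : X → K) j => io (s j)) '' E K io i T) (fun i _ => by
      refine (hcov i K hK io T ?_).mono (hD' i) (Nat.floor_mono ?_) (Set.Subset.refl _)
      · linarith [hT' i]
      · exact mul_le_mul_of_nonneg_right (hC' i) hTp)
  refine h1.mono le_rfl ?_ ?_
  · rw [Finset.card_univ]
    refine Nat.le_floor ?_
    push_cast
    rw [mul_assoc]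
    refine mul_le_mul_of_nonneg_left (Nat.floor_le ?_) (Nat.cast_nonneg _)
    exact mul_nonneg (Finset.sum_nonneg fun j _ => hC j) hTp
  · rintro _ ⟨s, ⟨i, hi⟩, rfl⟩
    rw [Set.mem_iUnion₂]
    exact ⟨i, Finset.mem_univ _, s, hi, rfl⟩

/-- points with small morphisms between tensor powers of exponents at most `k`, some conjugate of which is not a
morphism -/
def ExcTen (f : Sg H J r → (X → ℂ) → ℂ) (Lc : Set (X → ℂ)) (K : Type) [Field K] [NumberField K] (io : K →+* ℂ)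
    (Γ : Subgroup (GL H ℂ)) (k : ℕ) (T : ℝ) : Set (X → K) :=
  {s | ∃ a b : ℕ, a ≤ k ∧ b ≤ k ∧ ∃ S : (Fin b → J) → Set (Fin a → J), s ∈ ExcMor S f Lc K io Γ (k : ℝ) T}

theorem excTen_cov {U : Set (X → ℂ)} {f : Sg H J r → (X → ℂ) → ℂ}
    (hU : IsPreconnected U) (hUo : IsOpen U) (hne : U.Nonempty) (hf : ∀ i, AnalyticOnNhd ℂ (f i) U)
    (hreg : RegularM U f) (Γ : Subgroup (GL H ℂ)) (hΓ : ∀ γ ∈ Γ, MonInv U f (γ : Matrix H H ℂ))
    (Lc : Set (X → ℂ)) (hLc : IsCompact Lc) (hLU : Lc ⊆ U) (k : ℕ) (ε : ℝ) (hε : 0 < ε) :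
    ∃ (D : ℕ) (C' T₀ : ℝ), 0 ≤ C' ∧ 2 ≤ T₀ ∧
      ∀ (K : Type) [Field K] [NumberField K], Module.finrank ℚ K ≤ k → ∀ (io : K →+* ℂ) (T : ℝ), T₀ ≤ T →
        Cov D ⌊C' * T ^ ε⌋₊ ((fun (s : X → K) j => io (s j)) '' ExcTen f Lc K io Γ k T) := by
  classical
  obtain ⟨D, C', T₀, hC, hT₀, h⟩ := cov_iUnion (X := X)
    (I := Σ ab : Fin (k + 1) × Fin (k + 1), (Fin (ab.2 : ℕ) → J) → Set (Fin (ab.1 : ℕ) → J))
    (fun K _ _ io i T => ExcMor i.2 f Lc K io Γ (k : ℝ) T) k ε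
    (fun i => excMor_cov i.2 hU hUo hne hf hreg Γ hΓ Lc hLc hLU k (k : ℝ) ε (Nat.cast_nonneg _) hε)
  refine ⟨D, C', T₀, hC, hT₀, fun K _ _ hK io T hT => ?_⟩
  refine (h K hK io T hT).mono le_rfl le_rfl (Set.image_mono ?_)
  rintro s ⟨a, b, ha, hb, S, hs⟩
  exact ⟨⟨(⟨a, Nat.lt_succ_of_le ha⟩, ⟨b, Nat.lt_succ_of_le hb⟩), S⟩, hs⟩

/-- points with an integral morphism of size at most `T ^ k` between tensor powers of exponents at most `k`, of a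
definite type, the orbit of which under the group is infinite -/
def HodgePts (U : Set (X → ℂ)) (f : Sg H J r → (X → ℂ) → ℂ) (Lc : Set (X → ℂ)) (K : Type) [Field K] [NumberField K]
    (io : K →+* ℂ) (Γ : Subgroup (GL H ℤ)) (k : ℕ) (T : ℝ) : Set (X → K) :=
  {s | (∀ j, Y120.HtLe K T (s j)) ∧ (fun j => io (s j)) ∈ Lc ∧ ∃ a b : ℕ, a ≤ k ∧ b ≤ k ∧
    ∃ S : (Fin b → J) → Set (Fin a → J), Definite U f Γ S ∧ ∃ t : Matrix (Fin a → H) (Fin b → H) ℤ,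
      (∀ i j, ((|t i j| : ℤ) : ℝ) ≤ T ^ k) ∧
      Mor S (fun y => f y fun j => io (s j)) (t.map (Int.castRingHom ℂ)) ∧ {t' | ∃ γ ∈ Γ, t' = cj γ t}.Infinite}

theorem hodgePts_sub {U : Set (X → ℂ)} (f : Sg H J r → (X → ℂ) → ℂ) {Lc : Set (X → ℂ)} (hLU : Lc ⊆ U) (K : Type)
    [Field K] [NumberField K] (io : K →+* ℂ) (Γ : Subgroup (GL H ℤ)) (k : ℕ) (T : ℝ) :
    HodgePts U f Lc K io Γ k T ⊆
      ExcTen f Lc K io (Γ.map (Matrix.GeneralLinearGroup.map (Int.castRingHom ℂ))) k T := by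
  classical
  rintro s ⟨h1, h2, a, b, ha, hb, S, hD, t, ht, hM, hinf⟩
  have hmap : (Matrix.of fun i j => io (((t i j : ℤ) : 𝓞 K) : K) : Matrix (Fin a → H) (Fin b → H) ℂ) =
      t.map (Int.castRingHom ℂ) := by
    ext i j
    simp
  refine ⟨a, b, ha, hb, S, h1, h2, fun i j => ((t i j : ℤ) : 𝓞 K), ?_, ?_, ?_⟩
  · intro i j φ
    have h3 : φ ((((t i j : ℤ) : 𝓞 K) : 𝓞 K) : K) = ((t i j : ℤ) : ℂ) := by simp
    rw [h3, Real.rpow_natCast]
    refine le_trans (le_of_eq ?_) (ht i j)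
    rw [Complex.norm_intCast]
    push_cast
    rfl
  · rw [hmap]
    exact hM
  · by_contra hcon
    push Not at hcon
    apply hinf
    refine orbit_finite hD _ (hLU h2) t ?_
    intro γ hγ
    have h4 := hcon _ (Subgroup.mem_map_of_mem _ hγ)
    rw [hmap] at h4
    exact h4

theorem mainT {U : Set (X → ℂ)} {f : Sg H J r → (X → ℂ) → ℂ}
    (hU : IsPreconnected U) (hUo : IsOpen U) (hne : U.Nonempty) (hf : ∀ i, AnalyticOnNhd ℂ (f i) U)
    (hreg : RegularM U f) (Γ : Subgroup (GL H ℂ)) (hΓ : ∀ γ ∈ Γ, MonInv U f (γ : Matrix H H ℂ)) :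
    ∃ (ω : ℝ → ℕ) (T₀ : ℝ), Tendsto ω atTop atTop ∧ Monotone ω ∧ ∀ T, T₀ ≤ T → 0 < ω T ∧
      ∀ (K : Type) [Field K] [NumberField K], Module.finrank ℚ K ≤ ω T → ∀ io : K →+* ℂ,
        Cov ⌊T ^ ((ω T : ℝ)⁻¹)⌋₊ ⌊T ^ ((ω T : ℝ)⁻¹)⌋₊
          ((fun (s : X → K) j => io (s j)) '' ExcTen f (InnerM U (ω T)) K io Γ (ω T) T) ∧
        (ExcTen f (InnerM U (ω T)) K io Γ (ω T) T).Finite ∧
        ((ExcTen f (InnerM U (ω T)) K io Γ (ω T) T).ncard : ℝ) ≤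
          T ^ ((ω T : ℝ)⁻¹) * ({x : K | Y120.HtLe K T x}.ncard : ℝ) ^ (Fintype.card X - 1) := by
  classical
  obtain ⟨ω, T₀, h1, h2, h3⟩ := omega_gen (X := X) (fun _ => Unit)
    (fun k K _ _ io _ T => ExcTen f (InnerM U k) K io Γ k T)
    (fun k K _ _ io _ T s hs => by
      obtain ⟨a, b, _, _, S, hs⟩ := hs
      exact hs.1) (by
      intro k ε hε
      rcases Nat.eq_zero_or_pos k with hk | hk
      · refine ⟨0, 0, 2, le_rfl, le_rfl, ?_⟩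
        intro K _ _ hK
        have h1 : 0 < Module.finrank ℚ K := Module.finrank_pos
        omega
      obtain ⟨D, C, T₀, hC, hT₀, H⟩ := excTen_cov hU hUo hne hf hreg Γ hΓ (InnerM U k) (innerM_compact _ _)
        (innerM_sub _ hk) k ε hε
      exact ⟨D, C, T₀, hC, hT₀, fun K _ _ hK io _ T hT => H K hK io T hT⟩)
  exact ⟨ω, T₀, h1, h2, fun T hT => ⟨(h3 T hT).1, fun K _ _ hK io => (h3 T hT).2 K hK io ()⟩⟩

end Pool.Agent.Y890.VH
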